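import Pool.Agent.Lib_helper59.LR2.State

/-!
# Existence of the extremal state
-/

set_option autoImplicit false

open Finset Matrix

namespace Pool.Agent.LR2

namespace Exi

variable {X Y : Type} [Fintype X] [Fintype Y] {n : ℕ}

/-- the space of variables: square roots of the densities, weighted vectors, middle matrices -/
abbrev Par (X Y : Type) (n : ℕ) : Type :=
  (X → ℝ) × (Y → ℝ) × (X → Fin n → ℝ) × (Y → Fin n → ℝ) × (ℕ → Fin n → Fin n → ℝ)

/-- squares -/
def sqf {X : Type} (s : X → ℝ) : X → ℝ := fun x => s x ^ 2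

/-- the matrices -/
def mat (Z : ℕ → Fin n → Fin n → ℝ) : ℕ → Matrix (Fin n) (Fin n) ℝ := fun j => Matrix.of (Z j)

theorem continuous_chn (m : ℕ) (i j : Fin n) :
    Continuous fun Z : ℕ → Fin n → Fin n → ℝ => chn (mat Z) m i j := by
  induction m generalizing i j with
  | zero => exact continuous_const
  | succ m ih =>
    have h : (fun Z : ℕ → Fin n → Fin n → ℝ => chn (mat Z) (m + 1) i j) =
        fun Z => ∑ k, chn (mat Z) m i k * Z m k j := by
      funext Z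
      show (chn (mat Z) m * mat Z m) i j = _
      rw [Matrix.mul_apply]
      rfl
    rw [h]
    apply continuous_finset_sum
    intro k _
    apply (ih i k).mul
    exact (continuous_apply j).comp ((continuous_apply k).comp (continuous_apply m))

/-- the bilinear form in the variables -/
noncomputable def bl (m : ℕ) (P : Par X Y n) (x : X) (y : Y) : ℝ :=
  P.2.2.1 x ⬝ᵥ (chn (mat P.2.2.2.2) m *ᵥ P.2.2.2.1 y)

theorem continuous_bl (m : ℕ) (x : X) (y : Y) : Continuous fun P : Par X Y n => bl m P x y := by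
  unfold bl dotProduct Matrix.mulVec dotProduct
  apply continuous_finset_sum
  intro i _
  apply Continuous.mul
  · fun_prop
  · apply continuous_finset_sum
    intro j _
    apply Continuous.mul
    · exact (continuous_chn m i j).comp (by fun_prop)
    · fun_prop

theorem continuous_em (M : X → Y → ℝ) :
    Continuous fun P : Par X Y n => em (sqf P.1) (sqf P.2.1) M := by
  unfold em sqf
  fun_prop

theorem continuous_ctd (M : X → Y → ℝ) (x : X) (y : Y) :
    Continuous fun P : Par X Y n => ctd (sqf P.1) (sqf P.2.1) M x y := by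
  unfold ctd em rmean cmean sqf
  fun_prop

/-- the cost in the variables -/
noncomputable def cst (m : ℕ) (P : Par X Y n) : ℝ :=
  (∑ x, nsq (P.2.2.1 x) + ∑ j ∈ range m, fro (mat P.2.2.2.2 j) + ∑ y, nsq (P.2.2.2.1 y)) / (m + 2)

theorem continuous_cst (m : ℕ) : Continuous fun P : Par X Y n => cst m P := by
  unfold cst nsq fro mat
  simp only [Matrix.of_apply]
  fun_prop

/-- the box -/
def box (X Y : Type) (n : ℕ) (R : ℝ) : Set (Par X Y n) :=
  (Set.univ.pi fun _ => Set.Icc 0 1) ×ˢ (Set.univ.pi fun _ => Set.Icc 0 1) ×ˢ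
    (Set.univ.pi fun _ => Set.univ.pi fun _ => Set.Icc (-R) R) ×ˢ
    (Set.univ.pi fun _ => Set.univ.pi fun _ => Set.Icc (-R) R) ×ˢ
    (Set.univ.pi fun _ => Set.univ.pi fun _ => Set.univ.pi fun _ => Set.Icc (-R) R)

theorem isCompact_box (R : ℝ) : IsCompact (box X Y n R) := by
  unfold box
  refine IsCompact.prod ?_ (IsCompact.prod ?_ (IsCompact.prod ?_ (IsCompact.prod ?_ ?_)))
  · exact isCompact_univ_pi fun _ => isCompact_Icc
  · exact isCompact_univ_pi fun _ => isCompact_Icc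
  · exact isCompact_univ_pi fun _ => isCompact_univ_pi fun _ => isCompact_Icc
  · exact isCompact_univ_pi fun _ => isCompact_univ_pi fun _ => isCompact_Icc
  · exact isCompact_univ_pi fun _ => isCompact_univ_pi fun _ => isCompact_univ_pi fun _ =>
      isCompact_Icc

/-- the constraints -/
def con (M : X → Y → ℝ) (m : ℕ) : Set (Par X Y n) :=
  {P | (∑ x, P.1 x ^ 2 = 1 ∧ ∑ y, P.2.1 y ^ 2 = 1) ∧
    ∀ x y, P.1 x * P.2.1 y * ctd (sqf P.1) (sqf P.2.1) M x y = bl m P x y}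

theorem isClosed_con (M : X → Y → ℝ) (m : ℕ) : IsClosed (con (n := n) M m) := by
  unfold con
  have h1 : IsClosed {P : Par X Y n | ∑ x, P.1 x ^ 2 = 1} :=
    isClosed_eq (by fun_prop) continuous_const
  have h2 : IsClosed {P : Par X Y n | ∑ y, P.2.1 y ^ 2 = 1} :=
    isClosed_eq (by fun_prop) continuous_const
  have h3 : IsClosed {P : Par X Y n | ∀ x y,
      P.1 x * P.2.1 y * ctd (sqf P.1) (sqf P.2.1) M x y = bl m P x y} := by
    simp only [Set.setOf_forall]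
    refine isClosed_iInter fun x => isClosed_iInter fun y => ?_
    refine isClosed_eq ?_ (continuous_bl m x y)
    have h4 := continuous_ctd (n := n) M x y
    exact ((by fun_prop : Continuous fun P : Par X Y n => P.1 x * P.2.1 y)).mul h4
  exact (h1.inter h2).inter h3

theorem isPr_sqf {s : X → ℝ} (h : ∑ x, s x ^ 2 = 1) : IsPr (sqf s) :=
  ⟨fun x => sq_nonneg _, h⟩

theorem continuous_mx [Nonempty X] (μ₀ : X → ℝ) :
    Continuous fun s : X → ℝ => mx fun x => sqf s x / μ₀ x := by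
  unfold mx sqf
  apply Continuous.finset_sup'_apply
  intro x _
  fun_prop

/-- the functional in the variables -/
noncomputable def phi [Nonempty X] [Nonempty Y] (M : X → Y → ℝ) (μ₀ : X → ℝ) (ν₀ : Y → ℝ)
    (lam Lam : ℝ) (m : ℕ) (P : Par X Y n) : ℝ :=
  em (sqf P.1) (sqf P.2.1) M - lam * (DD μ₀ (sqf P.1) + DD ν₀ (sqf P.2.1)) - Lam * cst m P

theorem continuousOn_phi [Nonempty X] [Nonempty Y] (M : X → Y → ℝ) {μ₀ : X → ℝ} {ν₀ : Y → ℝ}
    (hμ : IsPos μ₀) (hν : IsPos ν₀) (lam Lam : ℝ) (m : ℕ) :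
    ContinuousOn (fun P : Par X Y n => phi M μ₀ ν₀ lam Lam m P) (con M m) := by
  unfold phi
  have h1 : ContinuousOn (fun P : Par X Y n => DD μ₀ (sqf P.1)) (con M m) := by
    unfold DD
    apply ContinuousOn.log
    · exact ((continuous_mx μ₀).comp continuous_fst).continuousOn
    · intro P hP
      have := one_le_mx hμ (isPr_sqf hP.1.1)
      exact (by linarith : (0 : ℝ) < mx fun x => sqf P.1 x / μ₀ x).ne'
  have h2 : ContinuousOn (fun P : Par X Y n => DD ν₀ (sqf P.2.1)) (con M m) := by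
    unfold DD
    apply ContinuousOn.log
    · exact ((continuous_mx ν₀).comp (continuous_fst.comp continuous_snd)).continuousOn
    · intro P hP
      have := one_le_mx hν (isPr_sqf hP.1.2)
      exact (by linarith : (0 : ℝ) < mx fun x => sqf P.2.1 x / ν₀ x).ne'
  exact ((continuous_em M).continuousOn.sub (continuousOn_const.mul (h1.add h2))).sub
    (continuousOn_const.mul (continuous_cst m).continuousOn)

/-- the factorisation of a point -/
noncomputable def toFac (M : X → Y → ℝ) (P : Par X Y n) : Fac X Y n where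
  p := fun x => rmean (sqf P.2.1) M x - em (sqf P.1) (sqf P.2.1) M
  q := fun y => cmean (sqf P.1) M y
  a := fun x => (P.1 x)⁻¹ • P.2.2.1 x
  b := fun y => (P.2.1 y)⁻¹ • P.2.2.2.1 y
  Z := mat P.2.2.2.2

theorem nsq_smul (c : ℝ) (v : Fin n → ℝ) : nsq (c • v) = c ^ 2 * nsq v := by
  unfold nsq
  rw [Finset.mul_sum]
  apply Finset.sum_congr rfl
  intro i _
  simp only [Pi.smul_apply, smul_eq_mul]
  ring

theorem sq_mul_nsq_inv (s : ℝ) (v : Fin n → ℝ) : s ^ 2 * nsq (s⁻¹ • v) ≤ nsq v := by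
  rw [nsq_smul]
  rcases eq_or_ne s 0 with h | h
  · rw [h]
    have := nsq_nonneg v
    simpa using this
  · apply le_of_eq
    field_simp

theorem cost_toFac (M : X → Y → ℝ) (m : ℕ) (P : Par X Y n) :
    (toFac M P).cost m (sqf P.1) (sqf P.2.1) ≤ cst m P := by
  unfold Fac.cost cst
  apply div_le_div_of_nonneg_right _ (by positivity)
  have h1 : ∑ x, sqf P.1 x * nsq ((toFac M P).a x) ≤ ∑ x, nsq (P.2.2.1 x) :=
    Finset.sum_le_sum fun x _ => sq_mul_nsq_inv _ _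
  have h2 : ∑ y, sqf P.2.1 y * nsq ((toFac M P).b y) ≤ ∑ y, nsq (P.2.2.2.1 y) :=
    Finset.sum_le_sum fun y _ => sq_mul_nsq_inv _ _
  have h3 : (toFac M P).Z = mat P.2.2.2.2 := rfl
  rw [h3]
  linarith

theorem bil_toFac (M : X → Y → ℝ) (m : ℕ) {P : Par X Y n} (hP : P ∈ con M m) {x : X} {y : Y}
    (hx : sqf P.1 x ≠ 0) (hy : sqf P.2.1 y ≠ 0) :
    (toFac M P).bil m x y = ctd (sqf P.1) (sqf P.2.1) M x y := by
  have hx' : P.1 x ≠ 0 := by
    intro h
    exact hx (by simp [sqf, h])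
  have hy' : P.2.1 y ≠ 0 := by
    intro h
    exact hy (by simp [sqf, h])
  have h1 := hP.2 x y
  show ((P.1 x)⁻¹ • P.2.2.1 x) ⬝ᵥ (chn (mat P.2.2.2.2) m *ᵥ ((P.2.1 y)⁻¹ • P.2.2.2.1 y)) = _
  rw [Matrix.mulVec_smul, smul_dotProduct, dotProduct_smul]
  have h2 : P.2.2.1 x ⬝ᵥ (chn (mat P.2.2.2.2) m *ᵥ P.2.2.2.1 y) =
      P.1 x * P.2.1 y * ctd (sqf P.1) (sqf P.2.1) M x y := h1.symm
  rw [h2, smul_eq_mul, smul_eq_mul]
  field_simp

theorem val_toFac (M : X → Y → ℝ) (m : ℕ) {P : Par X Y n} (hP : P ∈ con M m) :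
    (toFac M P).Val m M (sqf P.1) (sqf P.2.1) := by
  intro x y hx hy
  rw [bil_toFac M m hP hx hy]
  show M x y = (rmean (sqf P.2.1) M x - em (sqf P.1) (sqf P.2.1) M) + cmean (sqf P.1) M y + _
  unfold ctd
  ring

/-- the point of a state -/
noncomputable def ofFac (m : ℕ) (α : X → ℝ) (β : Y → ℝ) (F : Fac X Y n) : Par X Y n :=
  (fun x => Real.sqrt (α x), fun y => Real.sqrt (β y), fun x => Real.sqrt (α x) • F.a x,
    fun y => Real.sqrt (β y) • F.b y, fun j i k => if j < m then F.Z j i k else 0)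

theorem sqf_sqrt {α : X → ℝ} (hα : IsPr α) : sqf (fun x => Real.sqrt (α x)) = α := by
  funext x
  exact Real.sq_sqrt (hα.nonneg x)

theorem mat_ofFac (m : ℕ) (α : X → ℝ) (β : Y → ℝ) (F : Fac X Y n) {j : ℕ} (hj : j < m) :
    mat (ofFac m α β F).2.2.2.2 j = F.Z j := by
  ext i k
  show (if j < m then F.Z j i k else 0) = _
  rw [if_pos hj]

theorem cst_ofFac (m : ℕ) {α : X → ℝ} {β : Y → ℝ} (hα : IsPr α) (hβ : IsPr β) (F : Fac X Y n) :
    cst m (ofFac m α β F) = F.cost m α β := by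
  unfold Fac.cost cst
  congr 2
  · congr 1
    · apply Finset.sum_congr rfl
      intro x _
      show nsq (Real.sqrt (α x) • F.a x) = _
      rw [nsq_smul, Real.sq_sqrt (hα.nonneg x)]
    · apply Finset.sum_congr rfl
      intro j hj
      rw [mat_ofFac m α β F (Finset.mem_range.1 hj)]
  · apply Finset.sum_congr rfl
    intro y _
    show nsq (Real.sqrt (β y) • F.b y) = _
    rw [nsq_smul, Real.sq_sqrt (hβ.nonneg y)]

theorem phi_ofFac [Nonempty X] [Nonempty Y] (M : X → Y → ℝ) (μ₀ : X → ℝ) (ν₀ : Y → ℝ)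
    (lam Lam : ℝ) (m : ℕ) {α : X → ℝ} {β : Y → ℝ} (hα : IsPr α) (hβ : IsPr β) (F : Fac X Y n) :
    phi M μ₀ ν₀ lam Lam m (ofFac m α β F) = Xi M μ₀ ν₀ lam Lam m α β F := by
  unfold phi Xi
  rw [cst_ofFac m hα hβ]
  have h1 : sqf (ofFac m α β F).1 = α := sqf_sqrt hα
  have h2 : sqf (ofFac m α β F).2.1 = β := sqf_sqrt hβ
  rw [h1, h2]

theorem con_ofFac (M : X → Y → ℝ) (m : ℕ) {α : X → ℝ} {β : Y → ℝ} (hα : IsPr α) (hβ : IsPr β)
    {F : Fac X Y n} (hF : ∀ x y, α x ≠ 0 → β y ≠ 0 → F.bil m x y = ctd α β M x y) :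
    ofFac m α β F ∈ con M m := by
  have e1 : sqf (ofFac m α β F).1 = α := sqf_sqrt hα
  have e2 : sqf (ofFac m α β F).2.1 = β := sqf_sqrt hβ
  refine ⟨⟨?_, ?_⟩, ?_⟩
  · have : ∑ x, sqf (ofFac m α β F).1 x = 1 := by
      rw [e1]
      exact hα.sum
    exact this
  · have : ∑ y, sqf (ofFac m α β F).2.1 y = 1 := by
      rw [e2]
      exact hβ.sum
    exact this
  · intro x y
    rw [e1, e2]
    show Real.sqrt (α x) * Real.sqrt (β y) * ctd α β M x y =
      (Real.sqrt (α x) • F.a x) ⬝ᵥ (chn (mat (ofFac m α β F).2.2.2.2) m *ᵥ (Real.sqrt (β y) • F.b y))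
    have h1 : chn (mat (ofFac m α β F).2.2.2.2) m = chn F.Z m :=
      chn_congr fun j hj => mat_ofFac m α β F hj
    rw [h1, Matrix.mulVec_smul, smul_dotProduct, dotProduct_smul, smul_eq_mul, smul_eq_mul]
    rcases eq_or_ne (α x) 0 with hx | hx
    · rw [hx]
      simp
    · rcases eq_or_ne (β y) 0 with hy | hy
      · rw [hy]
        simp
      · have h2 : F.a x ⬝ᵥ (chn F.Z m *ᵥ F.b y) = ctd α β M x y := hF x y hx hy
        rw [h2]
        ring

theorem sq_le_nsq (v : Fin n → ℝ) (i : Fin n) : v i ^ 2 ≤ nsq v := by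
  unfold nsq
  exact Finset.single_le_sum (f := fun i => v i ^ 2) (fun _ _ => sq_nonneg _) (Finset.mem_univ i)

theorem sq_le_fro (Z : Matrix (Fin n) (Fin n) ℝ) (i j : Fin n) : Z i j ^ 2 ≤ fro Z := by
  unfold fro
  calc Z i j ^ 2 ≤ ∑ j, Z i j ^ 2 :=
        Finset.single_le_sum (f := fun j => Z i j ^ 2) (fun _ _ => sq_nonneg _) (Finset.mem_univ j)
    _ ≤ _ := Finset.single_le_sum (f := fun i => ∑ j, Z i j ^ 2)
        (fun _ _ => Finset.sum_nonneg fun _ _ => sq_nonneg _) (Finset.mem_univ i)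

theorem box_ofFac (m : ℕ) {α : X → ℝ} {β : Y → ℝ} (hα : IsPr α) (hβ : IsPr β) (F : Fac X Y n)
    {R : ℝ} (hR : 0 ≤ R) (hc : F.cost m α β * (m + 2) ≤ R ^ 2) :
    ofFac m α β F ∈ box X Y n R := by
  have hm2 : (0 : ℝ) < (m : ℝ) + 2 := by positivity
  have hc' : ∑ x, α x * nsq (F.a x) + ∑ j ∈ range m, fro (F.Z j) + ∑ y, β y * nsq (F.b y) ≤
      R ^ 2 := by
    have : F.cost m α β * (m + 2) =
        ∑ x, α x * nsq (F.a x) + ∑ j ∈ range m, fro (F.Z j) + ∑ y, β y * nsq (F.b y) := by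
      unfold Fac.cost
      rw [div_mul_cancel₀ _ hm2.ne']
    linarith
  have n1 : 0 ≤ ∑ x, α x * nsq (F.a x) :=
    Finset.sum_nonneg fun x _ => mul_nonneg (hα.nonneg x) (nsq_nonneg _)
  have n2 : 0 ≤ ∑ j ∈ range m, fro (F.Z j) := Finset.sum_nonneg fun j _ => fro_nonneg _
  have n3 : 0 ≤ ∑ y, β y * nsq (F.b y) :=
    Finset.sum_nonneg fun y _ => mul_nonneg (hβ.nonneg y) (nsq_nonneg _)
  have key : ∀ u : ℝ, u ^ 2 ≤ R ^ 2 → u ∈ Set.Icc (-R) R := by
    intro u hu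
    exact abs_le.1 (abs_le_of_sq_le_sq hu hR)
  refine ⟨?_, ?_, ?_, ?_, ?_⟩
  · intro x _
    exact ⟨Real.sqrt_nonneg _, Real.sqrt_le_one.2 (hα.le_one x)⟩
  · intro y _
    exact ⟨Real.sqrt_nonneg _, Real.sqrt_le_one.2 (hβ.le_one y)⟩
  · intro x _ i _
    apply key
    have h1 : nsq (Real.sqrt (α x) • F.a x) = α x * nsq (F.a x) := by
      rw [nsq_smul, Real.sq_sqrt (hα.nonneg x)]
    have h2 := sq_le_nsq (Real.sqrt (α x) • F.a x) i
    have h3 : α x * nsq (F.a x) ≤ ∑ x, α x * nsq (F.a x) :=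
      Finset.single_le_sum (f := fun x => α x * nsq (F.a x))
        (fun x _ => mul_nonneg (hα.nonneg x) (nsq_nonneg _)) (Finset.mem_univ x)
    show (Real.sqrt (α x) • F.a x) i ^ 2 ≤ _
    linarith
  · intro y _ i _
    apply key
    have h1 : nsq (Real.sqrt (β y) • F.b y) = β y * nsq (F.b y) := by
      rw [nsq_smul, Real.sq_sqrt (hβ.nonneg y)]
    have h2 := sq_le_nsq (Real.sqrt (β y) • F.b y) i
    have h3 : β y * nsq (F.b y) ≤ ∑ y, β y * nsq (F.b y) :=
      Finset.single_le_sum (f := fun y => β y * nsq (F.b y))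
        (fun y _ => mul_nonneg (hβ.nonneg y) (nsq_nonneg _)) (Finset.mem_univ y)
    show (Real.sqrt (β y) • F.b y) i ^ 2 ≤ _
    linarith
  · intro j _ i _ k _
    apply key
    show (if j < m then F.Z j i k else 0) ^ 2 ≤ _
    split_ifs with hj
    · have h2 := sq_le_fro (F.Z j) i k
      have h3 : fro (F.Z j) ≤ ∑ j ∈ range m, fro (F.Z j) :=
        Finset.single_le_sum (f := fun j => fro (F.Z j)) (fun j _ => fro_nonneg _)
          (Finset.mem_range.2 hj)
      linarith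
    · nlinarith [sq_nonneg R]

end Exi

open Exi

variable {X Y : Type} [Fintype X] [Fintype Y]

theorem cost_nonneg {n : ℕ} (F : Fac X Y n) (m : ℕ) {α : X → ℝ} {β : Y → ℝ} (hα : IsPr α)
    (hβ : IsPr β) : 0 ≤ F.cost m α β := by
  unfold Fac.cost
  have n1 : 0 ≤ ∑ x, α x * nsq (F.a x) :=
    Finset.sum_nonneg fun x _ => mul_nonneg (hα.nonneg x) (nsq_nonneg _)
  have n2 : 0 ≤ ∑ j ∈ range m, fro (F.Z j) := Finset.sum_nonneg fun j _ => fro_nonneg _
  have n3 : 0 ≤ ∑ y, β y * nsq (F.b y) :=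
    Finset.sum_nonneg fun y _ => mul_nonneg (hβ.nonneg y) (nsq_nonneg _)
  positivity

theorem em_le_sum (M : X → Y → ℝ) {α : X → ℝ} {β : Y → ℝ} (hα : IsPr α) (hβ : IsPr β) :
    em α β M ≤ ∑ x, ∑ y, |M x y| := by
  unfold em
  apply Finset.sum_le_sum
  intro x _
  apply Finset.sum_le_sum
  intro y _
  have h1 : 0 ≤ α x * β y := mul_nonneg (hα.nonneg x) (hβ.nonneg y)
  have h2 : α x * β y ≤ 1 := mul_le_one₀ (hα.le_one x) (hβ.nonneg y) (hβ.le_one y)
  calc α x * β y * M x y ≤ α x * β y * |M x y| := mul_le_mul_of_nonneg_left (le_abs_self _) h1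
    _ ≤ 1 * |M x y| := mul_le_mul_of_nonneg_right h2 (abs_nonneg _)
    _ = _ := one_mul _

theorem exists_state_pr [Nonempty X] [Nonempty Y] {n : ℕ} (M : X → Y → ℝ) {μ₀ : X → ℝ}
    {ν₀ : Y → ℝ} (hμ : IsPos μ₀) (hν : IsPos ν₀) {lam Lam : ℝ} (hlam : 0 < lam) (hLam : 0 < Lam)
    (m : ℕ) {α₀ : X → ℝ} {β₀ : Y → ℝ} {F₀ : Fac X Y n} (hα₀ : IsPr α₀) (hβ₀ : IsPr β₀)
    (hF₀ : F₀.Val m M α₀ β₀) :
    ∃ (α : X → ℝ) (β : Y → ℝ) (F : Fac X Y n), IsPr α ∧ IsPr β ∧
      (∀ x y, α x ≠ 0 → β y ≠ 0 → F.bil m x y = ctd α β M x y) ∧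
      vmean α F.a = 0 ∧ vmean β F.b = 0 ∧
      ∀ (α' : X → ℝ) (β' : Y → ℝ) (F' : Fac X Y n), IsPr α' → IsPr β' → F'.Val m M α' β' →
        Xi M μ₀ ν₀ lam Lam m α' β' F' ≤ Xi M μ₀ ν₀ lam Lam m α β F := by
  classical
  set B : ℝ := ∑ x, ∑ y, |M x y| with hB
  set c₀ : ℝ := (F₀.cen m α₀ β₀ M).cost m α₀ β₀ with hc₀
  set x₀ : ℝ := Xi M μ₀ ν₀ lam Lam m α₀ β₀ (F₀.cen m α₀ β₀ M) with hx₀
  have hm2 : (0 : ℝ) < (m : ℝ) + 2 := by positivity
  have hc₀0 : 0 ≤ c₀ := cost_nonneg _ m hα₀ hβ₀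
  set S : ℝ := (m + 2) * (c₀ + |B - x₀| / Lam + 1) with hS
  have hS0 : 0 ≤ S := by
    have : 0 ≤ |B - x₀| / Lam := div_nonneg (abs_nonneg _) hLam.le
    positivity
  set R : ℝ := Real.sqrt S with hR
  have hR0 : 0 ≤ R := Real.sqrt_nonneg _
  have hR2 : R ^ 2 = S := Real.sq_sqrt hS0
  have hfrac : 0 ≤ |B - x₀| / Lam := div_nonneg (abs_nonneg _) hLam.le
  -- the compact set
  set K : Set (Par X Y n) := box X Y n R ∩ con M m with hK
  have hKc : IsCompact K := (isCompact_box R).inter_right (isClosed_con M m)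
  have hstart : ofFac m α₀ β₀ (F₀.cen m α₀ β₀ M) ∈ K := by
    refine ⟨box_ofFac m hα₀ hβ₀ _ hR0 ?_, con_ofFac M m hα₀ hβ₀ ?_⟩
    · rw [hR2, hS, ← hc₀]
      nlinarith
    · intro x y hx hy
      exact F₀.cen_bil hα₀ hβ₀ hF₀ hx hy
  obtain ⟨P, hPK, hPmax⟩ := hKc.exists_isMaxOn ⟨_, hstart⟩
    ((continuousOn_phi (n := n) M hμ hν lam Lam m).mono Set.inter_subset_right)
  have hPc : P ∈ con M m := hPK.2
  have hα : IsPr (sqf P.1) := isPr_sqf hPc.1.1
  have hβ : IsPr (sqf P.2.1) := isPr_sqf hPc.1.2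
  have hval := val_toFac M m hPc
  have hXiP : Exi.phi M μ₀ ν₀ lam Lam m P ≤
      Xi M μ₀ ν₀ lam Lam m (sqf P.1) (sqf P.2.1)
        ((toFac M P).cen m (sqf P.1) (sqf P.2.1) M) := by
    unfold Exi.phi Xi
    have h1 := (toFac M P).cen_cost m M hα hβ
    have h2 := cost_toFac M m P
    have h3 : Lam * ((toFac M P).cen m (sqf P.1) (sqf P.2.1) M).cost m (sqf P.1) (sqf P.2.1) ≤
        Lam * cst m P := mul_le_mul_of_nonneg_left (h1.trans h2) hLam.le
    linarith
  refine ⟨sqf P.1, sqf P.2.1, (toFac M P).cen m (sqf P.1) (sqf P.2.1) M, hα, hβ, ?_, ?_, ?_, ?_⟩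
  · intro x y hx hy
    exact (toFac M P).cen_bil hα hβ hval hx hy
  · exact vmean_center hα _
  · exact vmean_center hβ _
  · intro α' β' F' hα' hβ' hF'
    refine le_trans ?_ hXiP
    have h0 : x₀ ≤ Exi.phi M μ₀ ν₀ lam Lam m P := by
      have := hPmax hstart
      simp only [Set.mem_setOf_eq] at this
      rwa [phi_ofFac M μ₀ ν₀ lam Lam m hα₀ hβ₀] at this
    by_cases hcost : F'.cost m α' β' * (m + 2) ≤ R ^ 2
    · -- inside the box
      set F'' := F'.cen m α' β' M with hF''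
      have h1 : F''.cost m α' β' ≤ F'.cost m α' β' := F'.cen_cost m M hα' hβ'
      have h2 : ofFac m α' β' F'' ∈ K := by
        refine ⟨box_ofFac m hα' hβ' _ hR0 ?_, con_ofFac M m hα' hβ' ?_⟩
        · exact (mul_le_mul_of_nonneg_right h1 hm2.le).trans hcost
        · intro x y hx hy
          exact F'.cen_bil hα' hβ' hF' hx hy
      have h3 := hPmax h2
      simp only [Set.mem_setOf_eq] at h3
      rw [phi_ofFac M μ₀ ν₀ lam Lam m hα' hβ'] at h3
      refine le_trans ?_ h3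
      unfold Xi
      have h4 : Lam * F''.cost m α' β' ≤ Lam * F'.cost m α' β' :=
        mul_le_mul_of_nonneg_left h1 hLam.le
      linarith
    · push Not at hcost
      refine le_trans ?_ h0
      have h1 : em α' β' M ≤ B := em_le_sum M hα' hβ'
      have h2 : 0 ≤ lam * (DD μ₀ α' + DD ν₀ β') :=
        mul_nonneg hlam.le (add_nonneg (DD_nonneg hμ hα') (DD_nonneg hν hβ'))
      have h3 : |B - x₀| / Lam ≤ F'.cost m α' β' := by
        rw [hR2, hS] at hcost
        have h4 : (m + 2) * (c₀ + |B - x₀| / Lam + 1) < (m + 2) * F'.cost m α' β' := by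
          linarith
        have h5 := lt_of_mul_lt_mul_left h4 hm2.le
        linarith
      have h4 : |B - x₀| ≤ Lam * F'.cost m α' β' := by
        rw [div_le_iff₀ hLam] at h3
        linarith
      have h5 : B - x₀ ≤ |B - x₀| := le_abs_self _
      unfold Xi
      linarith

end Pool.Agent.LR2
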