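import Pool.Agent.Lib_helper36.LRD.Spec
import Pool.Agent.Lib_helper59.LR2.Chaos

/-!
# Matrix Khintchine inequality with random signs: trace moments
-/

set_option autoImplicit false

open Finset Matrix

namespace Pool.Agent.LR2

variable {n : Type} [Fintype n] [DecidableEq n]

/-- squared length of a vector indexed by a finite type -/
def mknsq (v : n → ℝ) : ℝ := ∑ i, v i ^ 2

theorem mknsq_nonneg (v : n → ℝ) : 0 ≤ mknsq v := Finset.sum_nonneg fun _ _ => sq_nonneg _

theorem mk_elem {x y : ℝ} {q p r : ℕ} (h : q + p = 2 * r) :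
    x ^ q * y ^ p + x ^ p * y ^ q ≤ x ^ (2 * r) + y ^ (2 * r) := by
  have hx : x ^ (2 * r) = |x| ^ (2 * r) := by rw [pow_mul, pow_mul, sq_abs]
  have hy : y ^ (2 * r) = |y| ^ (2 * r) := by rw [pow_mul, pow_mul, sq_abs]
  have h1 : x ^ q * y ^ p ≤ |x| ^ q * |y| ^ p := by
    calc x ^ q * y ^ p ≤ |x ^ q * y ^ p| := le_abs_self _
      _ = _ := by rw [abs_mul, abs_pow, abs_pow]
  have h2 : x ^ p * y ^ q ≤ |x| ^ p * |y| ^ q := by
    calc x ^ p * y ^ q ≤ |x ^ p * y ^ q| := le_abs_self _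
      _ = _ := by rw [abs_mul, abs_pow, abs_pow]
  rw [hx, hy]
  have ha := abs_nonneg x
  have hb := abs_nonneg y
  set a := |x|
  set b := |y|
  have h3 : 0 ≤ (a ^ q - b ^ q) * (a ^ p - b ^ p) := by
    rcases le_total a b with hab | hab
    · exact mul_nonneg_of_nonpos_of_nonpos
        (sub_nonpos.2 (pow_le_pow_left₀ ha hab q)) (sub_nonpos.2 (pow_le_pow_left₀ ha hab p))
    · exact mul_nonneg
        (sub_nonneg.2 (pow_le_pow_left₀ hb hab q)) (sub_nonneg.2 (pow_le_pow_left₀ hb hab p))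
  have h4 : a ^ (2 * r) = a ^ q * a ^ p := by rw [← pow_add, h]
  have h5 : b ^ (2 * r) = b ^ q * b ^ p := by rw [← pow_add, h]
  rw [h4, h5]
  nlinarith

/-- traces of alternating products in two eigenbases -/
theorem mk_tr2 {W Y H : Matrix n n ℝ} (hW : Wᵀ = W) (hY : Yᵀ = Y) (hH : Hᵀ = H) :
    ∃ (P : Matrix n n ℝ) (lam mu : n → ℝ), ∀ q p : ℕ,
      trace (H * W ^ q * H * Y ^ p) = ∑ a, ∑ b, lam a ^ q * mu b ^ p * P a b ^ 2 := by
  have hW' : W.IsHermitian := by
    unfold Matrix.IsHermitian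
    rw [conjTranspose_eq_transpose_of_trivial, hW]
  have hY' : Y.IsHermitian := by
    unfold Matrix.IsHermitian
    rw [conjTranspose_eq_transpose_of_trivial, hY]
  obtain ⟨U, lam, hU1, hU2, hWe⟩ := LRD.spec hW'
  obtain ⟨V, mu, hV1, hV2, hYe⟩ := LRD.spec hY'
  refine ⟨Uᵀ * H * V, lam, mu, ?_⟩
  intro q p
  set P := Uᵀ * H * V with hP
  have hPt : Pᵀ = Vᵀ * H * U := by
    rw [hP, transpose_mul, transpose_mul, transpose_transpose, hH, Matrix.mul_assoc]
  have e1 : W ^ q = U * diagonal (lam ^ q) * Uᵀ := by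
    rw [hWe, LRD.conj_pow hU2 hU1, diagonal_pow]
  have e2 : Y ^ p = V * diagonal (mu ^ p) * Vᵀ := by
    rw [hYe, LRD.conj_pow hV2 hV1, diagonal_pow]
  have e3 : trace (H * W ^ q * H * Y ^ p) =
      trace (Pᵀ * diagonal (lam ^ q) * (P * diagonal (mu ^ p))) := by
    rw [e1, e2]
    have e4 : H * (U * diagonal (lam ^ q) * Uᵀ) * H * (V * diagonal (mu ^ p) * Vᵀ) =
        (H * (U * diagonal (lam ^ q) * Uᵀ) * H * (V * diagonal (mu ^ p))) * Vᵀ := by
      simp only [Matrix.mul_assoc]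
    rw [e4, trace_mul_comm, hPt, hP]
    simp only [Matrix.mul_assoc]
  rw [e3]
  unfold trace
  rw [Finset.sum_comm]
  apply Finset.sum_congr rfl
  intro b _
  rw [diag_apply, Matrix.mul_apply]
  apply Finset.sum_congr rfl
  intro a _
  rw [mul_diagonal, mul_diagonal, transpose_apply, Pi.pow_apply, Pi.pow_apply]
  ring

theorem mk_gm {W Y H : Matrix n n ℝ} (hW : Wᵀ = W) (hY : Yᵀ = Y) (hH : Hᵀ = H) (r : ℕ) :
    ∑ q ∈ range (2 * r + 1), trace (H * W ^ q * H * Y ^ (2 * r - q)) ≤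
      (2 * r + 1) / 2 * (trace (H * W ^ (2 * r) * H) + trace (H * Y ^ (2 * r) * H)) := by
  obtain ⟨P, lam, mu, hT⟩ := mk_tr2 hW hY hH
  have e1 : trace (H * W ^ (2 * r) * H) = ∑ a, ∑ b, lam a ^ (2 * r) * P a b ^ 2 := by
    have := hT (2 * r) 0
    rw [pow_zero, Matrix.mul_one] at this
    rw [this]
    simp
  have e2 : trace (H * Y ^ (2 * r) * H) = ∑ a, ∑ b, mu b ^ (2 * r) * P a b ^ 2 := by
    have := hT 0 (2 * r)
    rw [pow_zero, Matrix.mul_one] at this
    have e3 : trace (H * Y ^ (2 * r) * H) = trace (H * H * Y ^ (2 * r)) := by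
      rw [trace_mul_comm, Matrix.mul_assoc]
    rw [e3, this]
    simp
  rw [e1, e2]
  have e3 : ∑ q ∈ range (2 * r + 1), trace (H * W ^ q * H * Y ^ (2 * r - q)) =
      1 / 2 * ∑ q ∈ range (2 * r + 1), (trace (H * W ^ q * H * Y ^ (2 * r - q)) +
        trace (H * W ^ (2 * r - q) * H * Y ^ q)) := by
    rw [Finset.sum_add_distrib]
    have e4 : ∑ q ∈ range (2 * r + 1), trace (H * W ^ (2 * r - q) * H * Y ^ q) =
        ∑ q ∈ range (2 * r + 1), trace (H * W ^ q * H * Y ^ (2 * r - q)) := by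
      rw [← Finset.sum_range_reflect]
      apply Finset.sum_congr rfl
      intro q hq
      have hq' : q < 2 * r + 1 := Finset.mem_range.1 hq
      have h1 : 2 * r + 1 - 1 - q = 2 * r - q := by omega
      have h2 : 2 * r - (2 * r - q) = q := by omega
      rw [h1, h2]
    rw [e4]
    ring
  rw [e3]
  have e5 : ∀ q ∈ range (2 * r + 1), trace (H * W ^ q * H * Y ^ (2 * r - q)) +
      trace (H * W ^ (2 * r - q) * H * Y ^ q) ≤
      (∑ a, ∑ b, lam a ^ (2 * r) * P a b ^ 2) + ∑ a, ∑ b, mu b ^ (2 * r) * P a b ^ 2 := by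
    intro q hq
    have hq' : q < 2 * r + 1 := Finset.mem_range.1 hq
    rw [hT, hT, ← Finset.sum_add_distrib, ← Finset.sum_add_distrib]
    apply Finset.sum_le_sum
    intro a _
    rw [← Finset.sum_add_distrib, ← Finset.sum_add_distrib]
    apply Finset.sum_le_sum
    intro b _
    rw [← add_mul, ← add_mul]
    apply mul_le_mul_of_nonneg_right _ (sq_nonneg _)
    exact mk_elem (by omega)
  have e6 := Finset.sum_le_sum e5
  rw [Finset.sum_const, Finset.card_range, nsmul_eq_mul] at e6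
  push_cast at e6
  linarith

theorem mk_geom (W Y : Matrix n n ℝ) (m : ℕ) :
    W ^ (m + 1) - Y ^ (m + 1) = ∑ q ∈ range (m + 1), W ^ q * (W - Y) * Y ^ (m - q) := by
  induction m with
  | zero => simp
  | succ m ih =>
    rw [Finset.sum_range_succ]
    have h1 : ∑ q ∈ range (m + 1), W ^ q * (W - Y) * Y ^ (m + 1 - q) =
        (W ^ (m + 1) - Y ^ (m + 1)) * Y := by
      rw [ih, Finset.sum_mul]
      apply Finset.sum_congr rfl
      intro q hq
      have hq' : q < m + 1 := Finset.mem_range.1 hq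
      have h2 : m + 1 - q = (m - q) + 1 := by omega
      rw [h2, pow_succ]
      simp only [Matrix.mul_assoc]
    rw [h1, Nat.sub_self, pow_zero, Matrix.mul_one]
    rw [pow_succ W (m + 1), pow_succ Y (m + 1)]
    noncomm_ring

variable {J : Type} [Fintype J] [DecidableEq J]

/-- the random matrix -/
def mkS (X : J → Matrix n n ℝ) (ε : J → Bool) : Matrix n n ℝ := ∑ j, sg (ε j) • X j

omit [DecidableEq n] [DecidableEq J] in
theorem mkS_symm {X : J → Matrix n n ℝ} (hX : ∀ j, (X j)ᵀ = X j) (ε : J → Bool) :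
    (mkS X ε)ᵀ = mkS X ε := by
  unfold mkS
  rw [transpose_sum]
  apply Finset.sum_congr rfl
  intro j _
  rw [transpose_smul, hX]

/-- flip one sign -/
def mkflip (j : J) (ε : J → Bool) : J → Bool := Function.update ε j (!ε j)

theorem mkflip_flip (j : J) (ε : J → Bool) : mkflip j (mkflip j ε) = ε := by
  unfold mkflip
  rw [Function.update_self, Function.update_idem, Bool.not_not, Function.update_eq_self]

/-- flip as a permutation -/
def mkflipE (j : J) : (J → Bool) ≃ (J → Bool) :=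
  ⟨mkflip j, mkflip j, mkflip_flip j, mkflip_flip j⟩

theorem mk_sum_flip (j : J) (f : (J → Bool) → ℝ) : ∑ ε, f (mkflip j ε) = ∑ ε, f ε :=
  (mkflipE j).sum_comp f

theorem mk_sg_not (b : Bool) : sg (!b) = -sg b := by
  cases b <;> simp [sg]

theorem mk_sg_sq (b : Bool) : sg b * sg b = 1 := by
  cases b <;> simp [sg]

omit [DecidableEq n] in
theorem mkS_flip (X : J → Matrix n n ℝ) (j : J) (ε : J → Bool) :
    mkS X ε - mkS X (mkflip j ε) = (2 * sg (ε j)) • X j := by
  unfold mkS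
  rw [← Finset.sum_sub_distrib, Finset.sum_eq_single j]
  · have h : mkflip j ε j = !ε j := by
      unfold mkflip
      rw [Function.update_self]
    rw [h, mk_sg_not, ← sub_smul]
    congr 1
    ring
  · intro i _ hi
    have h : mkflip j ε i = ε i := by
      unfold mkflip
      rw [Function.update_of_ne hi]
    rw [h, sub_self]
  · intro h
    exact absurd (Finset.mem_univ j) h

/-- integration by parts for one sign -/
theorem mk_parts {X : J → Matrix n n ℝ} (hX : ∀ j, (X j)ᵀ = X j) (j : J) (r : ℕ) :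
    ∑ ε, sg (ε j) * trace (X j * mkS X ε ^ (2 * r + 1)) ≤
      (2 * r + 1) * ∑ ε, trace (X j * mkS X ε ^ (2 * r) * X j) := by
  set G : (J → Bool) → ℝ := fun ε => trace (X j * mkS X ε ^ (2 * r + 1)) with hG
  have h1 : ∑ ε, sg (ε j) * G ε = 1 / 2 * ∑ ε, sg (ε j) * (G ε - G (mkflip j ε)) := by
    have h2 : ∑ ε, sg (mkflip j ε j) * G (mkflip j ε) = ∑ ε, sg (ε j) * G ε :=
      mk_sum_flip j fun ε => sg (ε j) * G ε
    have h3 : ∀ ε : J → Bool, sg (mkflip j ε j) = -sg (ε j) := by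
      intro ε
      unfold mkflip
      rw [Function.update_self, mk_sg_not]
    simp only [h3, neg_mul, Finset.sum_neg_distrib] at h2
    simp only [mul_sub, Finset.sum_sub_distrib]
    linarith
  have h4 : ∀ ε, sg (ε j) * (G ε - G (mkflip j ε)) =
      2 * ∑ q ∈ range (2 * r + 1),
        trace (X j * mkS X ε ^ q * X j * mkS X (mkflip j ε) ^ (2 * r - q)) := by
    intro ε
    have h5 : G ε - G (mkflip j ε) = 2 * sg (ε j) * ∑ q ∈ range (2 * r + 1),
        trace (X j * mkS X ε ^ q * X j * mkS X (mkflip j ε) ^ (2 * r - q)) := by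
      show trace (X j * mkS X ε ^ (2 * r + 1)) - trace (X j * mkS X (mkflip j ε) ^ (2 * r + 1)) = _
      rw [← trace_sub, ← Matrix.mul_sub, mk_geom, mkS_flip, Matrix.mul_sum, trace_sum,
        Finset.mul_sum]
      apply Finset.sum_congr rfl
      intro q _
      rw [Matrix.mul_smul, Matrix.smul_mul, Matrix.mul_smul, trace_smul, smul_eq_mul]
      simp only [Matrix.mul_assoc]
    rw [h5]
    have := mk_sg_sq (ε j)
    set T := ∑ q ∈ range (2 * r + 1),
        trace (X j * mkS X ε ^ q * X j * mkS X (mkflip j ε) ^ (2 * r - q))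
    linear_combination (2 * T) * this
  have h6 : ∀ ε, sg (ε j) * (G ε - G (mkflip j ε)) ≤
      (2 * r + 1) * (trace (X j * mkS X ε ^ (2 * r) * X j) +
        trace (X j * mkS X (mkflip j ε) ^ (2 * r) * X j)) := by
    intro ε
    rw [h4]
    have := mk_gm (mkS_symm hX ε) (mkS_symm hX (mkflip j ε)) (hX j) r
    linarith
  rw [h1]
  have h7 := Finset.sum_le_sum fun ε (_ : ε ∈ (Finset.univ : Finset (J → Bool))) => h6 ε
  rw [← Finset.mul_sum, Finset.sum_add_distrib] at h7
  have h8 := mk_sum_flip j fun ε => trace (X j * mkS X ε ^ (2 * r) * X j)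
  rw [h8] at h7
  linarith

omit [DecidableEq n] in
theorem mk_fro (A : Matrix n n ℝ) : trace (A * Aᵀ) = ∑ a, ∑ b, A a b ^ 2 := by
  unfold trace
  apply Finset.sum_congr rfl
  intro a _
  rw [diag_apply, Matrix.mul_apply]
  apply Finset.sum_congr rfl
  intro b _
  rw [transpose_apply]
  ring

omit [DecidableEq J] in
/-- the variance term -/
theorem mk_var {X : J → Matrix n n ℝ} (hX : ∀ j, (X j)ᵀ = X j) {s : ℝ}
    (hs : ∀ v : n → ℝ, ∑ j, mknsq (X j *ᵥ v) ≤ s * mknsq v) {W : Matrix n n ℝ} (hW : Wᵀ = W)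
    (r : ℕ) : ∑ j, trace (X j * W ^ (2 * r) * X j) ≤ s * trace (W ^ (2 * r)) := by
  have hWr : (W ^ r)ᵀ = W ^ r := by rw [transpose_pow, hW]
  have h1 : ∀ j, trace (X j * W ^ (2 * r) * X j) = ∑ b, mknsq (X j *ᵥ fun a => (W ^ r) a b) := by
    intro j
    have h2 : X j * W ^ (2 * r) * X j = (X j * W ^ r) * (X j * W ^ r)ᵀ := by
      rw [transpose_mul, hWr, hX, two_mul, pow_add]
      simp only [Matrix.mul_assoc]
    rw [h2, mk_fro, Finset.sum_comm]
    rfl
  have h3 : trace (W ^ (2 * r)) = ∑ b, mknsq fun a => (W ^ r) a b := by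
    have h2 : W ^ (2 * r) = W ^ r * (W ^ r)ᵀ := by
      rw [hWr, two_mul, pow_add]
    rw [h2, mk_fro, Finset.sum_comm]
    rfl
  simp only [h1]
  rw [h3, Finset.sum_comm, Finset.mul_sum]
  exact Finset.sum_le_sum fun b _ => hs _

theorem mk_step {X : J → Matrix n n ℝ} (hX : ∀ j, (X j)ᵀ = X j) {s : ℝ}
    (hs : ∀ v : n → ℝ, ∑ j, mknsq (X j *ᵥ v) ≤ s * mknsq v) (r : ℕ) :
    ∑ ε, trace (mkS X ε ^ (2 * (r + 1))) ≤ (2 * r + 1) * s * ∑ ε, trace (mkS X ε ^ (2 * r)) := by
  have h1 : ∀ ε, trace (mkS X ε ^ (2 * (r + 1))) =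
      ∑ j, sg (ε j) * trace (X j * mkS X ε ^ (2 * r + 1)) := by
    intro ε
    have h2 : mkS X ε ^ (2 * (r + 1)) = (∑ j, sg (ε j) • X j) * mkS X ε ^ (2 * r + 1) := by
      have : 2 * (r + 1) = (2 * r + 1) + 1 := by ring
      rw [this, pow_succ']
      rfl
    rw [h2, Finset.sum_mul, trace_sum]
    apply Finset.sum_congr rfl
    intro j _
    rw [Matrix.smul_mul, trace_smul, smul_eq_mul]
  simp only [h1]
  rw [Finset.sum_comm]
  calc ∑ j, ∑ ε, sg (ε j) * trace (X j * mkS X ε ^ (2 * r + 1))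
      ≤ ∑ j, (2 * r + 1) * ∑ ε, trace (X j * mkS X ε ^ (2 * r) * X j) :=
        Finset.sum_le_sum fun j _ => mk_parts hX j r
    _ = (2 * r + 1) * ∑ ε, ∑ j, trace (X j * mkS X ε ^ (2 * r) * X j) := by
        rw [← Finset.mul_sum, Finset.sum_comm]
    _ ≤ (2 * r + 1) * ∑ ε, s * trace (mkS X ε ^ (2 * r)) := by
        apply mul_le_mul_of_nonneg_left _ (by positivity)
        exact Finset.sum_le_sum fun ε _ => mk_var hX hs (mkS_symm hX ε) r
    _ = _ := by
        rw [← Finset.mul_sum]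
        ring

/-- trace moments -/
theorem mk_moment {X : J → Matrix n n ℝ} (hX : ∀ j, (X j)ᵀ = X j) {s : ℝ} (hs0 : 0 ≤ s)
    (hs : ∀ v : n → ℝ, ∑ j, mknsq (X j *ᵥ v) ≤ s * mknsq v) {Q : ℕ} (q : ℕ) (hq : q ≤ Q) :
    ∑ ε, trace (mkS X ε ^ (2 * q)) ≤
      ((2 * Q - 1) * s) ^ q * (Fintype.card n * 2 ^ Fintype.card J) := by
  induction q with
  | zero =>
    simp only [mul_zero, pow_zero, trace_one, Finset.sum_const, Finset.card_univ, nsmul_eq_mul,
      Fintype.card_fun, Fintype.card_bool]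
    push_cast
    apply le_of_eq
    ring
  | succ r ih =>
    have ih' := ih (by omega)
    have hQ : (r : ℝ) + 1 ≤ Q := by exact_mod_cast hq
    have hpos : 0 ≤ ∑ ε, trace (mkS X ε ^ (2 * r)) := by
      apply Finset.sum_nonneg
      intro ε _
      have hWr : (mkS X ε ^ r)ᵀ = mkS X ε ^ r := by rw [transpose_pow, mkS_symm hX]
      have h2 : mkS X ε ^ (2 * r) = mkS X ε ^ r * (mkS X ε ^ r)ᵀ := by
        rw [hWr, two_mul, pow_add]
      rw [h2, mk_fro]
      positivity
    calc _ ≤ (2 * r + 1) * s * ∑ ε, trace (mkS X ε ^ (2 * r)) := mk_step hX hs r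
      _ ≤ ((2 * Q - 1) * s) * ∑ ε, trace (mkS X ε ^ (2 * r)) := by
          apply mul_le_mul_of_nonneg_right _ hpos
          apply mul_le_mul_of_nonneg_right _ hs0
          linarith
      _ ≤ ((2 * Q - 1) * s) * (((2 * Q - 1) * s) ^ r * (Fintype.card n * 2 ^ Fintype.card J)) := by
          apply mul_le_mul_of_nonneg_left ih'
          apply mul_nonneg _ hs0
          linarith
      _ = _ := by
          rw [pow_succ]
          ring

end Pool.Agent.LR2
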