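import Pool.Agent.Lib_helper39.LR2.MKa

/-!
# Matrix Khintchine inequality with random signs: operator norms
-/

set_option autoImplicit false

open Finset Matrix

namespace Pool.Agent.LR2

variable {n : Type} [Fintype n] [DecidableEq n]

/-- Euclidean operator norm of a real matrix -/
noncomputable def opn (A : Matrix n n ℝ) : ℝ := ‖Matrix.toEuclideanCLM (n := n) (𝕜 := ℝ) A‖

theorem opn_nonneg (A : Matrix n n ℝ) : 0 ≤ opn A := norm_nonneg _

theorem opn_zero : opn (0 : Matrix n n ℝ) = 0 := by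
  unfold opn
  rw [map_zero, norm_zero]

theorem opn_add_le (A B : Matrix n n ℝ) : opn (A + B) ≤ opn A + opn B := by
  unfold opn
  rw [map_add]
  exact norm_add_le _ _

theorem opn_sub_le (A B : Matrix n n ℝ) : opn (A - B) ≤ opn A + opn B := by
  unfold opn
  rw [map_sub]
  exact norm_sub_le _ _

theorem opn_smul (c : ℝ) (A : Matrix n n ℝ) : opn (c • A) = |c| * opn A := by
  unfold opn
  rw [map_smul, norm_smul, Real.norm_eq_abs]

theorem opn_sum_le {ι : Type*} (s : Finset ι) (A : ι → Matrix n n ℝ) :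
    opn (∑ i ∈ s, A i) ≤ ∑ i ∈ s, opn (A i) := by
  unfold opn
  rw [map_sum]
  exact norm_sum_le _ _

theorem opn_vec (A : Matrix n n ℝ) (v : n → ℝ) :
    ‖Matrix.toEuclideanCLM (n := n) (𝕜 := ℝ) A (WithLp.toLp 2 v)‖ ^ 2 = mknsq (A *ᵥ v) := by
  rw [Matrix.toEuclideanCLM_toLp, EuclideanSpace.norm_sq_eq]
  unfold mknsq
  apply Finset.sum_congr rfl
  intro i _
  rw [Real.norm_eq_abs, sq_abs]

theorem mknsq_eq (v : n → ℝ) : ‖WithLp.toLp 2 v‖ ^ 2 = mknsq v := by
  rw [EuclideanSpace.norm_sq_eq]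
  unfold mknsq
  apply Finset.sum_congr rfl
  intro i _
  rw [Real.norm_eq_abs, sq_abs]

theorem mknsq_mulVec_le (A : Matrix n n ℝ) (v : n → ℝ) :
    mknsq (A *ᵥ v) ≤ opn A ^ 2 * mknsq v := by
  rw [← opn_vec, ← mknsq_eq v, ← mul_pow]
  exact pow_le_pow_left₀ (norm_nonneg _) (ContinuousLinearMap.le_opNorm _ _) 2

theorem opn_le {A : Matrix n n ℝ} {R : ℝ} (hR : 0 ≤ R)
    (h : ∀ v : n → ℝ, mknsq (A *ᵥ v) ≤ R ^ 2 * mknsq v) : opn A ≤ R := by
  unfold opn
  apply ContinuousLinearMap.opNorm_le_bound _ hR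
  intro w
  have h1 := h (WithLp.ofLp w)
  have h2 := opn_vec A (WithLp.ofLp w)
  have h3 := mknsq_eq (WithLp.ofLp w)
  rw [WithLp.toLp_ofLp] at h2 h3
  rw [← h2, ← h3, ← mul_pow] at h1
  exact (pow_le_pow_iff_left₀ (norm_nonneg _) (mul_nonneg hR (norm_nonneg _)) two_ne_zero).1 h1

theorem opn_sq_le {A : Matrix n n ℝ} {R : ℝ} (hR : 0 ≤ R)
    (h : ∀ v : n → ℝ, mknsq (A *ᵥ v) ≤ R * mknsq v) : opn A ^ 2 ≤ R := by
  have h1 : opn A ≤ Real.sqrt R := by
    apply opn_le (Real.sqrt_nonneg _)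
    intro v
    rw [Real.sq_sqrt hR]
    exact h v
  calc opn A ^ 2 ≤ Real.sqrt R ^ 2 := pow_le_pow_left₀ (opn_nonneg A) h1 2
    _ = R := Real.sq_sqrt hR

theorem mknsq_orth {U : Matrix n n ℝ} (h : Uᵀ * U = 1) (v : n → ℝ) :
    mknsq (U *ᵥ v) = mknsq v := by
  have h1 : ∀ w : n → ℝ, mknsq w = w ⬝ᵥ w := by
    intro w
    unfold mknsq dotProduct
    apply Finset.sum_congr rfl
    intro i _
    ring
  rw [h1, h1, dotProduct_mulVec, ← mulVec_transpose, mulVec_mulVec, h, one_mulVec]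

/-- the operator norm against the trace moments -/
theorem opn_trace {S : Matrix n n ℝ} (hS : Sᵀ = S) (q : ℕ) :
    (opn S ^ 2) ^ q ≤ trace (S ^ (2 * q)) ∨ IsEmpty n := by
  rcases isEmpty_or_nonempty n with hn | hn
  · exact Or.inr hn
  left
  have hS' : S.IsHermitian := by
    unfold Matrix.IsHermitian
    rw [conjTranspose_eq_transpose_of_trivial, hS]
  obtain ⟨U, lam, h1, h2, hSe⟩ := LRD.spec hS'
  have htr : trace (S ^ (2 * q)) = ∑ a, lam a ^ (2 * q) := by
    rw [hSe, LRD.conj_pow h2 h1, diagonal_pow, trace_mul_comm, ← Matrix.mul_assoc, h2,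
      Matrix.one_mul, trace_diagonal]
    rfl
  obtain ⟨a0, -, ha0⟩ := Finset.exists_max_image Finset.univ (fun a => |lam a|)
    Finset.univ_nonempty
  have h3 : opn S ≤ |lam a0| := by
    apply opn_le (abs_nonneg _)
    intro v
    have h4 : S *ᵥ v = U *ᵥ (diagonal lam *ᵥ (Uᵀ *ᵥ v)) := by
      rw [mulVec_mulVec, mulVec_mulVec, ← hSe]
    have h2' : Uᵀᵀ * Uᵀ = 1 := by rw [transpose_transpose, h1]
    rw [h4, mknsq_orth h2, ← mknsq_orth h2' v]
    unfold mknsq
    rw [Finset.mul_sum]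
    apply Finset.sum_le_sum
    intro a _
    rw [mulVec_diagonal, mul_pow]
    apply mul_le_mul_of_nonneg_right _ (sq_nonneg _)
    rw [← sq_abs (lam a)]
    exact pow_le_pow_left₀ (abs_nonneg _) (ha0 a (Finset.mem_univ a)) 2
  rw [htr]
  calc (opn S ^ 2) ^ q ≤ (|lam a0| ^ 2) ^ q :=
        pow_le_pow_left₀ (sq_nonneg _) (pow_le_pow_left₀ (opn_nonneg S) h3 2) q
    _ = lam a0 ^ (2 * q) := by rw [sq_abs, pow_mul]
    _ ≤ _ := Finset.single_le_sum (f := fun a => lam a ^ (2 * q))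
        (fun a _ => by show 0 ≤ lam a ^ (2 * q); rw [pow_mul]; positivity) (Finset.mem_univ a0)

theorem opn_empty [IsEmpty n] (A : Matrix n n ℝ) : opn A = 0 := by
  apply le_antisymm _ (opn_nonneg A)
  apply opn_le le_rfl
  intro v
  unfold mknsq
  simp

variable {J : Type} [Fintype J] [DecidableEq J]

/-- Matrix Khintchine: the average over the signs of the squared operator norm -/
theorem mk_main {X : J → Matrix n n ℝ} (hX : ∀ j, (X j)ᵀ = X j) {s : ℝ} (hs0 : 0 ≤ s)
    (hs : ∀ v : n → ℝ, ∑ j, mknsq (X j *ᵥ v) ≤ s * mknsq v) :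
    1 / 2 ^ Fintype.card J * ∑ ε, opn (mkS X ε) ^ 2 ≤
      6 * (1 + Real.log (Fintype.card n)) * s := by
  rcases isEmpty_or_nonempty n with hn | hn
  · simp only [opn_empty]
    have : Fintype.card n = 0 := Fintype.card_eq_zero
    rw [this]
    simp
    positivity
  set N : ℝ := (Fintype.card n : ℝ) with hN
  have hN1 : 1 ≤ N := by
    rw [hN]
    exact_mod_cast Fintype.card_pos
  have hlog : 0 ≤ Real.log N := Real.log_nonneg hN1
  set q : ℕ := max 1 ⌈Real.log N⌉₊ with hq
  have hq1 : 1 ≤ q := le_max_left _ _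
  have hqlog : Real.log N ≤ q := (Nat.le_ceil _).trans (by exact_mod_cast le_max_right _ _)
  have hqup : (q : ℝ) ≤ Real.log N + 1 := by
    rw [hq]
    push_cast
    apply max_le
    · linarith
    · exact (Nat.ceil_lt_add_one hlog).le
  set E : ℝ := 1 / 2 ^ Fintype.card J * ∑ ε, opn (mkS X ε) ^ 2 with hE
  have hE0 : 0 ≤ E := by
    rw [hE]
    positivity
  have hmom := mk_moment hX hs0 hs (Q := q) q le_rfl
  have hpow : E ^ q ≤ 1 / 2 ^ Fintype.card J * ∑ ε, (opn (mkS X ε) ^ 2) ^ q := by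
    have h1 := Real.pow_arith_mean_le_arith_mean_pow (Finset.univ : Finset (J → Bool))
      (fun _ => 1 / 2 ^ Fintype.card J) (fun ε => opn (mkS X ε) ^ 2)
      (fun _ _ => by positivity) (by
        rw [Finset.sum_const, Finset.card_univ, nsmul_eq_mul, Fintype.card_fun,
          Fintype.card_bool]
        push_cast
        field_simp) (fun _ _ => sq_nonneg _) q
    rw [← Finset.mul_sum, ← Finset.mul_sum] at h1
    exact h1
  have hle : E ^ q ≤ ((2 * q - 1) * s * Real.exp 1) ^ q := by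
    calc E ^ q ≤ 1 / 2 ^ Fintype.card J * ∑ ε, (opn (mkS X ε) ^ 2) ^ q := hpow
      _ ≤ 1 / 2 ^ Fintype.card J * ∑ ε, trace (mkS X ε ^ (2 * q)) := by
          apply mul_le_mul_of_nonneg_left _ (by positivity)
          apply Finset.sum_le_sum
          intro ε _
          rcases opn_trace (mkS_symm hX ε) q with h | h
          · exact h
          · exact absurd hn (by
              rw [not_nonempty_iff]
              exact h)
      _ ≤ 1 / 2 ^ Fintype.card J * (((2 * q - 1) * s) ^ q * (N * 2 ^ Fintype.card J)) := by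
          apply mul_le_mul_of_nonneg_left hmom (by positivity)
      _ = ((2 * q - 1) * s) ^ q * N := by
          field_simp
      _ ≤ ((2 * q - 1) * s) ^ q * Real.exp 1 ^ q := by
          apply mul_le_mul_of_nonneg_left
          · rw [← Real.exp_nat_mul, mul_one]
            calc N = Real.exp (Real.log N) := (Real.exp_log (by linarith)).symm
              _ ≤ _ := Real.exp_le_exp.2 hqlog
          · apply pow_nonneg
            apply mul_nonneg _ hs0
            have : (1 : ℝ) ≤ q := by exact_mod_cast hq1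
            linarith
      _ = _ := by rw [← mul_pow]
  have hq1' : (1 : ℝ) ≤ q := by exact_mod_cast hq1
  have h2 : E ≤ (2 * q - 1) * s * Real.exp 1 := by
    apply (pow_le_pow_iff_left₀ hE0 _ (by omega : q ≠ 0)).1 hle
    apply mul_nonneg (mul_nonneg (by linarith) hs0) (Real.exp_pos 1).le
  have he : Real.exp 1 ≤ 2.72 := by
    have := Real.exp_one_lt_d9
    linarith
  refine h2.trans ?_
  have h3 : (2 * q - 1) * Real.exp 1 ≤ 6 * (1 + Real.log N) := by
    calc (2 * (q : ℝ) - 1) * Real.exp 1 ≤ (2 * q - 1) * 2.72 := by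
          apply mul_le_mul_of_nonneg_left he (by linarith)
      _ ≤ 6 * (1 + Real.log N) := by linarith
  calc (2 * (q : ℝ) - 1) * s * Real.exp 1 = ((2 * q - 1) * Real.exp 1) * s := by ring
    _ ≤ _ := mul_le_mul_of_nonneg_right h3 hs0

end Pool.Agent.LR2
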