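import Pool.Agent.Lib_helper39.LR2.MKb

/-!
# Matrix Khintchine inequality with random signs: symmetrisation and the tilted form
-/

set_option autoImplicit false

open Finset Matrix

namespace Pool.Agent.LR2

section Symm

variable {Ω : Type} [Fintype Ω] [DecidableEq Ω]

/-- product weight -/
def mkpw (w : Ω → ℝ) {L : ℕ} (ω : Fin L → Ω) : ℝ := ∏ l, w (ω l)

omit [Fintype Ω] [DecidableEq Ω] in
theorem mkpw_nonneg {w : Ω → ℝ} (hw : ∀ a, 0 ≤ w a) {L : ℕ} (ω : Fin L → Ω) : 0 ≤ mkpw w ω :=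
  Finset.prod_nonneg fun _ _ => hw _

omit [DecidableEq Ω] in
theorem mk_prod_sum {L : ℕ} (f : Fin L → Ω → ℝ) :
    ∑ ω : Fin L → Ω, ∏ l, f l (ω l) = ∏ l, ∑ a, f l a := by
  rw [Finset.prod_univ_sum, Fintype.piFinset_univ]

omit [DecidableEq Ω] in
theorem mkpw_sum {w : Ω → ℝ} (hw1 : ∑ a, w a = 1) (L : ℕ) :
    ∑ ω : Fin L → Ω, mkpw w ω = 1 := by
  unfold mkpw
  rw [mk_prod_sum (fun _ => w)]
  simp [hw1]

theorem mk_marg0 {w : Ω → ℝ} (hw1 : ∑ a, w a = 1) {L : ℕ} (l : Fin L) (a : Ω) :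
    ∑ ω : Fin L → Ω, mkpw w ω * (if ω l = a then 1 else 0) = w a := by
  have h1 : ∀ ω : Fin L → Ω, mkpw w ω * (if ω l = a then 1 else 0) =
      ∏ k, (w (ω k) * (if k = l then (if ω k = a then 1 else 0) else 1)) := by
    intro ω
    rw [Finset.prod_mul_distrib, Finset.prod_ite_eq']
    simp [mkpw]
  simp only [h1]
  rw [mk_prod_sum (fun k b => w b * (if k = l then (if b = a then 1 else 0) else 1)),
    Finset.prod_eq_single l]
  · simp
  · intro k _ hk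
    simp [hk, hw1]
  · intro h
    exact absurd (Finset.mem_univ l) h

variable {E : Type} [SeminormedAddCommGroup E] [NormedSpace ℝ E]

theorem mk_marg {w : Ω → ℝ} (hw1 : ∑ a, w a = 1) {L : ℕ} (l : Fin L) (Y : Ω → E) :
    ∑ ω : Fin L → Ω, mkpw w ω • Y (ω l) = ∑ a, w a • Y a := by
  have h1 : ∀ ω : Fin L → Ω, mkpw w ω • Y (ω l) =
      ∑ a, (mkpw w ω * (if ω l = a then 1 else 0)) • Y a := by
    intro ω
    rw [Finset.sum_eq_single (ω l)]
    · simp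
    · intro a _ ha
      simp [Ne.symm ha]
    · intro h
      exact absurd (Finset.mem_univ _) h
  simp only [h1]
  rw [Finset.sum_comm]
  apply Finset.sum_congr rfl
  intro a _
  rw [← Finset.sum_smul, mk_marg0 hw1]

theorem mk_mean {w : Ω → ℝ} (hw1 : ∑ a, w a = 1) (L : ℕ) (Y : Ω → E) :
    ∑ ω : Fin L → Ω, mkpw w ω • ∑ l, Y (ω l) = (L : ℝ) • ∑ a, w a • Y a := by
  simp only [Finset.smul_sum]
  rw [Finset.sum_comm]
  simp only [mk_marg hw1]
  rw [Finset.sum_const, Finset.card_univ, Fintype.card_fin, ← Nat.cast_smul_eq_nsmul ℝ,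
    Finset.smul_sum]

omit [DecidableEq Ω] in
/-- Jensen for the squared norm -/
theorem mk_jensen {ι : Type} [Fintype ι] {P : ι → ℝ} (hP : ∀ i, 0 ≤ P i) (hP1 : ∑ i, P i = 1)
    (c : E) (Z : ι → E) : ‖c - ∑ i, P i • Z i‖ ^ 2 ≤ ∑ i, P i * ‖c - Z i‖ ^ 2 := by
  have h1 : c - ∑ i, P i • Z i = ∑ i, P i • (c - Z i) := by
    simp only [smul_sub]
    rw [Finset.sum_sub_distrib, ← Finset.sum_smul, hP1, one_smul]
  have h2 : ‖∑ i, P i • (c - Z i)‖ ≤ ∑ i, P i * ‖c - Z i‖ := by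
    refine (norm_sum_le _ _).trans (le_of_eq ?_)
    apply Finset.sum_congr rfl
    intro i _
    rw [norm_smul, Real.norm_eq_abs, abs_of_nonneg (hP i)]
  rw [h1]
  calc ‖∑ i, P i • (c - Z i)‖ ^ 2 ≤ (∑ i, P i * ‖c - Z i‖) ^ 2 :=
        pow_le_pow_left₀ (norm_nonneg _) h2 2
    _ ≤ _ := Real.pow_arith_mean_le_arith_mean_pow Finset.univ P (fun i => ‖c - Z i‖)
        (fun i _ => hP i) hP1 (fun i _ => norm_nonneg _) 2

/-- swap of two configurations -/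
def mkswap {L : ℕ} (ε : Fin L → Bool) (p : (Fin L → Ω) × (Fin L → Ω)) :
    (Fin L → Ω) × (Fin L → Ω) :=
  (fun l => if ε l then p.1 l else p.2 l, fun l => if ε l then p.2 l else p.1 l)

omit [Fintype Ω] [DecidableEq Ω] in
theorem mkswap_swap {L : ℕ} (ε : Fin L → Bool) (p : (Fin L → Ω) × (Fin L → Ω)) :
    mkswap ε (mkswap ε p) = p := by
  unfold mkswap
  ext l
  · by_cases h : ε l <;> simp [h]
  · by_cases h : ε l <;> simp [h]

theorem mk_sym_pair {w : Ω → ℝ} {L : ℕ} (Y : Ω → E) (ε : Fin L → Bool) :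
    ∑ p : (Fin L → Ω) × (Fin L → Ω), mkpw w p.1 * mkpw w p.2 * ‖∑ l, (Y (p.1 l) - Y (p.2 l))‖ ^ 2 =
    ∑ p : (Fin L → Ω) × (Fin L → Ω), mkpw w p.1 * mkpw w p.2 *
      ‖∑ l, sg (ε l) • (Y (p.1 l) - Y (p.2 l))‖ ^ 2 := by
  let e : ((Fin L → Ω) × (Fin L → Ω)) ≃ ((Fin L → Ω) × (Fin L → Ω)) :=
    ⟨mkswap ε, mkswap ε, mkswap_swap ε, mkswap_swap ε⟩
  rw [← e.sum_comp]
  apply Finset.sum_congr rfl
  intro p _
  have h1 : mkpw w (e p).1 * mkpw w (e p).2 = mkpw w p.1 * mkpw w p.2 := by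
    unfold mkpw
    rw [← Finset.prod_mul_distrib, ← Finset.prod_mul_distrib]
    apply Finset.prod_congr rfl
    intro l _
    show w (if ε l then p.1 l else p.2 l) * w (if ε l then p.2 l else p.1 l) = _
    by_cases h : ε l <;> simp [h, mul_comm]
  have h2 : ∀ l, Y ((e p).1 l) - Y ((e p).2 l) = sg (ε l) • (Y (p.1 l) - Y (p.2 l)) := by
    intro l
    show Y (if ε l then p.1 l else p.2 l) - Y (if ε l then p.2 l else p.1 l) = _
    by_cases h : ε l <;> simp [h, sg]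
  rw [h1]
  simp only [h2]

theorem mk_sq_two (a b : E) : ‖a - b‖ ^ 2 ≤ 2 * ‖a‖ ^ 2 + 2 * ‖b‖ ^ 2 := by
  have h1 := norm_sub_le a b
  have h2 := norm_nonneg (a - b)
  have h3 := norm_nonneg a
  have h4 := norm_nonneg b
  nlinarith [sq_nonneg (‖a‖ - ‖b‖)]

/-- symmetrisation -/
theorem mk_symm {w : Ω → ℝ} (hw : ∀ a, 0 ≤ w a) (hw1 : ∑ a, w a = 1) (L : ℕ) (Y : Ω → E) :
    ∑ ω : Fin L → Ω, mkpw w ω * ‖∑ l, Y (ω l)‖ ^ 2 ≤
      2 * ‖(L : ℝ) • ∑ a, w a • Y a‖ ^ 2 +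
      8 * (1 / 2 ^ L * ∑ ε : Fin L → Bool, ∑ ω : Fin L → Ω,
        mkpw w ω * ‖∑ l, sg (ε l) • Y (ω l)‖ ^ 2) := by
  set m : E := (L : ℝ) • ∑ a, w a • Y a with hm
  have hmean : m = ∑ ω : Fin L → Ω, mkpw w ω • ∑ l, Y (ω l) := (mk_mean hw1 L Y).symm
  have hP1 := mkpw_sum hw1 L
  -- first step
  have s1 : ∑ ω : Fin L → Ω, mkpw w ω * ‖∑ l, Y (ω l)‖ ^ 2 ≤
      2 * ‖m‖ ^ 2 + 2 * ∑ ω : Fin L → Ω, mkpw w ω * ‖(∑ l, Y (ω l)) - m‖ ^ 2 := by
    have h1 : ∀ ω : Fin L → Ω, mkpw w ω * ‖∑ l, Y (ω l)‖ ^ 2 ≤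
        mkpw w ω * (2 * ‖m‖ ^ 2) + 2 * (mkpw w ω * ‖(∑ l, Y (ω l)) - m‖ ^ 2) := by
      intro ω
      have h2 := mk_sq_two ((∑ l, Y (ω l)) - m) (-m)
      rw [sub_neg_eq_add, sub_add_cancel, norm_neg] at h2
      have h3 := mul_le_mul_of_nonneg_left h2 (mkpw_nonneg hw ω)
      linarith
    refine (Finset.sum_le_sum fun ω _ => h1 ω).trans (le_of_eq ?_)
    rw [Finset.sum_add_distrib, ← Finset.sum_mul, hP1, one_mul, ← Finset.mul_sum]
  -- second step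
  have s2 : ∑ ω : Fin L → Ω, mkpw w ω * ‖(∑ l, Y (ω l)) - m‖ ^ 2 ≤
      ∑ p : (Fin L → Ω) × (Fin L → Ω), mkpw w p.1 * mkpw w p.2 *
        ‖∑ l, (Y (p.1 l) - Y (p.2 l))‖ ^ 2 := by
    rw [Fintype.sum_prod_type]
    apply Finset.sum_le_sum
    intro ω _
    have h1 := mk_jensen (mkpw_nonneg hw (L := L)) hP1 (∑ l, Y (ω l))
      (fun ω' : Fin L → Ω => ∑ l, Y (ω' l))
    rw [← hmean] at h1
    have h2 := mul_le_mul_of_nonneg_left h1 (mkpw_nonneg hw ω)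
    refine h2.trans (le_of_eq ?_)
    rw [Finset.mul_sum]
    apply Finset.sum_congr rfl
    intro ω' _
    simp only [Finset.sum_sub_distrib]
    ring
  -- third step
  have s3 : ∀ ε : Fin L → Bool, ∑ p : (Fin L → Ω) × (Fin L → Ω), mkpw w p.1 * mkpw w p.2 *
      ‖∑ l, (Y (p.1 l) - Y (p.2 l))‖ ^ 2 ≤
      4 * ∑ ω : Fin L → Ω, mkpw w ω * ‖∑ l, sg (ε l) • Y (ω l)‖ ^ 2 := by
    intro ε
    rw [mk_sym_pair Y ε]
    have h1 : ∀ p : (Fin L → Ω) × (Fin L → Ω), mkpw w p.1 * mkpw w p.2 *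
        ‖∑ l, sg (ε l) • (Y (p.1 l) - Y (p.2 l))‖ ^ 2 ≤
        2 * (mkpw w p.1 * ‖∑ l, sg (ε l) • Y (p.1 l)‖ ^ 2 * mkpw w p.2) +
        2 * (mkpw w p.1 * (mkpw w p.2 * ‖∑ l, sg (ε l) • Y (p.2 l)‖ ^ 2)) := by
      intro p
      have h2 : ∑ l, sg (ε l) • (Y (p.1 l) - Y (p.2 l)) =
          (∑ l, sg (ε l) • Y (p.1 l)) - ∑ l, sg (ε l) • Y (p.2 l) := by
        simp only [smul_sub, Finset.sum_sub_distrib]
      rw [h2]
      have h3 := mul_le_mul_of_nonneg_left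
        (mk_sq_two (∑ l, sg (ε l) • Y (p.1 l)) (∑ l, sg (ε l) • Y (p.2 l)))
        (mul_nonneg (mkpw_nonneg hw p.1) (mkpw_nonneg hw p.2))
      linarith
    refine (Finset.sum_le_sum fun p _ => h1 p).trans (le_of_eq ?_)
    rw [Finset.sum_add_distrib, ← Finset.mul_sum, ← Finset.mul_sum, Fintype.sum_prod_type,
      Fintype.sum_prod_type]
    simp only [← Finset.mul_sum, hP1, mul_one]
    rw [← Finset.sum_mul, hP1, one_mul]
    ring
  have s4 : ∑ p : (Fin L → Ω) × (Fin L → Ω), mkpw w p.1 * mkpw w p.2 *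
      ‖∑ l, (Y (p.1 l) - Y (p.2 l))‖ ^ 2 ≤
      4 * (1 / 2 ^ L * ∑ ε : Fin L → Bool, ∑ ω : Fin L → Ω,
        mkpw w ω * ‖∑ l, sg (ε l) • Y (ω l)‖ ^ 2) := by
    have h1 := Finset.sum_le_sum fun ε (_ : ε ∈ (Finset.univ : Finset (Fin L → Bool))) => s3 ε
    rw [Finset.sum_const, Finset.card_univ, Fintype.card_fun, Fintype.card_bool,
      Fintype.card_fin, nsmul_eq_mul, ← Finset.mul_sum] at h1
    push_cast at h1
    have h2 : (0 : ℝ) < 2 ^ L := by positivity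
    calc _ = 1 / 2 ^ L * (2 ^ L * ∑ p : (Fin L → Ω) × (Fin L → Ω), mkpw w p.1 * mkpw w p.2 *
          ‖∑ l, (Y (p.1 l) - Y (p.2 l))‖ ^ 2) := by field_simp
      _ ≤ 1 / 2 ^ L * (4 * ∑ ε : Fin L → Bool, ∑ ω : Fin L → Ω,
          mkpw w ω * ‖∑ l, sg (ε l) • Y (ω l)‖ ^ 2) :=
          mul_le_mul_of_nonneg_left h1 (by positivity)
      _ = _ := by ring
  linarith

end Symm

section Tilt

variable {n : Type} [Fintype n] [DecidableEq n] {J : Type} [Fintype J] [DecidableEq J]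

/-- the tilted weight of one round -/
noncomputable def mkw (u : (J → Bool) → ℝ) (a : (J → Bool) × Bool) : ℝ :=
  1 / 2 ^ Fintype.card J * (1 / 2 * (1 + sg a.2 * u a.1 / 2))

theorem mk_abs_sg (b : Bool) : |sg b| = 1 := by
  cases b <;> simp [sg]

omit [DecidableEq J] in
theorem mkw_nonneg {u : (J → Bool) → ℝ} (hu : ∀ g, |u g| ≤ 1) (a : (J → Bool) × Bool) :
    0 ≤ mkw u a := by
  unfold mkw
  have h1 : |sg a.2 * u a.1| ≤ 1 := by
    rw [abs_mul, mk_abs_sg, one_mul]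
    exact hu _
  have h2 := (abs_le.1 h1).1
  have : 0 ≤ 1 + sg a.2 * u a.1 / 2 := by linarith
  positivity

theorem mk_sum_bool (f : Bool → ℝ) : ∑ b, f b = f true + f false := by
  rw [Fintype.sum_bool]

theorem mkw_sum_right (u : (J → Bool) → ℝ) (g : J → Bool) :
    ∑ b, mkw u (g, b) = 1 / 2 ^ Fintype.card J := by
  unfold mkw
  rw [mk_sum_bool]
  simp only [sg, if_true, Bool.false_eq_true, if_false]
  ring

theorem mkw_sum (u : (J → Bool) → ℝ) : ∑ a, mkw u a = 1 := by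
  rw [Fintype.sum_prod_type]
  simp only [mkw_sum_right]
  rw [Finset.sum_const, Finset.card_univ, Fintype.card_fun, Fintype.card_bool, nsmul_eq_mul]
  push_cast
  field_simp

/-- the tilted mean of one round -/
theorem mkw_mean {E : Type} [AddCommGroup E] [Module ℝ E] (u : (J → Bool) → ℝ)
    (T : (J → Bool) → E) :
    ∑ a : (J → Bool) × Bool, mkw u a • (sg a.2 • T a.1) =
      (1 / 2 : ℝ) • ((1 / 2 ^ Fintype.card J : ℝ) • ∑ g, u g • T g) := by
  rw [Fintype.sum_prod_type, Finset.smul_sum, Finset.smul_sum]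
  apply Finset.sum_congr rfl
  intro g _
  rw [Fintype.sum_bool]
  simp only [mkw, sg, if_true, Bool.false_eq_true, if_false, smul_smul, ← add_smul]
  congr 1
  ring

theorem mk_sum_tail {L : ℕ} (u : (J → Bool) → ℝ) (Φ : (Fin L → J → Bool) → ℝ) :
    ∑ ω : Fin L → (J → Bool) × Bool, mkpw (mkw u) ω * Φ (fun l => (ω l).1) =
      (1 / 2 ^ Fintype.card J) ^ L * ∑ g : Fin L → J → Bool, Φ g := by
  rw [← (Equiv.arrowProdEquivProdArrow (Fin L) (fun _ => J → Bool) (fun _ => Bool)).symm.sum_comp,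
    Fintype.sum_prod_type, Finset.mul_sum]
  apply Finset.sum_congr rfl
  intro g _
  have h1 : ∀ ξ : Fin L → Bool, mkpw (mkw u)
      ((Equiv.arrowProdEquivProdArrow (Fin L) (fun _ => J → Bool) (fun _ => Bool)).symm (g, ξ)) *
      Φ (fun l => ((Equiv.arrowProdEquivProdArrow (Fin L) (fun _ => J → Bool)
        (fun _ => Bool)).symm (g, ξ) l).1) = (∏ l, mkw u (g l, ξ l)) * Φ g := by
    intro ξ
    rfl
  simp only [h1]
  rw [← Finset.sum_mul, mk_prod_sum (fun l b => mkw u (g l, b))]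
  simp only [mkw_sum_right]
  rw [Finset.prod_const, Finset.card_univ, Fintype.card_fin]

/-- multiplication of signs -/
def mkx (c b : Bool) : Bool := if c then b else !b

theorem mkx_x (c b : Bool) : mkx c (mkx c b) = b := by
  cases c <;> cases b <;> rfl

theorem sg_mkx (c b : Bool) : sg (mkx c b) = sg c * sg b := by
  cases c <;> cases b <;> simp [mkx, sg]

theorem mk_eps_shift {L : ℕ} (ξ : Fin L → Bool) (F : (Fin L → Bool) → ℝ) :
    ∑ ε : Fin L → Bool, F (fun l => mkx (ξ l) (ε l)) = ∑ ε, F ε := by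
  let e : (Fin L → Bool) ≃ (Fin L → Bool) :=
    ⟨fun ε l => mkx (ξ l) (ε l), fun ε l => mkx (ξ l) (ε l),
      fun ε => funext fun l => mkx_x _ _, fun ε => funext fun l => mkx_x _ _⟩
  exact e.sum_comp F

theorem mk_g_shift {L : ℕ} (ε : Fin L → Bool) (F : (Fin L → J → Bool) → ℝ) :
    ∑ g : Fin L → J → Bool, F (fun l j => mkx (ε l) (g l j)) = ∑ g, F g := by
  let e : (Fin L → J → Bool) ≃ (Fin L → J → Bool) :=
    ⟨fun g l j => mkx (ε l) (g l j), fun g l j => mkx (ε l) (g l j),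
      fun g => funext fun l => funext fun j => mkx_x _ _,
      fun g => funext fun l => funext fun j => mkx_x _ _⟩
  exact e.sum_comp F

omit [Fintype n] [DecidableEq n] [DecidableEq J] in
theorem mk_smul_S (X : J → Matrix n n ℝ) (c : Bool) (g : J → Bool) :
    sg c • mkS X g = mkS X (fun j => mkx c (g j)) := by
  unfold mkS
  rw [Finset.smul_sum]
  apply Finset.sum_congr rfl
  intro j _
  rw [smul_smul, sg_mkx]

/-- uniform rounds -/
theorem mk_uniform {X : J → Matrix n n ℝ} (hX : ∀ j, (X j)ᵀ = X j) {s : ℝ} (hs0 : 0 ≤ s)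
    (hs : ∀ v : n → ℝ, ∑ j, mknsq (X j *ᵥ v) ≤ s * mknsq v) (L : ℕ) :
    (1 / 2 ^ Fintype.card J) ^ L * ∑ g : Fin L → J → Bool, opn (∑ l, mkS X (g l)) ^ 2 ≤
      6 * (1 + Real.log (Fintype.card n)) * (L * s) := by
  have h1 := mk_main (J := Fin L × J) (X := fun k => X k.2) (fun k => hX k.2)
    (s := L * s) (by positivity) (by
      intro v
      rw [Fintype.sum_prod_type]
      simp only
      rw [Finset.sum_const, Finset.card_univ, Fintype.card_fin, nsmul_eq_mul, mul_assoc]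
      exact mul_le_mul_of_nonneg_left (hs v) (Nat.cast_nonneg L))
  have h2 : ∑ ε : Fin L × J → Bool, opn (mkS (fun k : Fin L × J => X k.2) ε) ^ 2 =
      ∑ g : Fin L → J → Bool, opn (∑ l, mkS X (g l)) ^ 2 := by
    rw [← (Equiv.curry (Fin L) J Bool).sum_comp]
    apply Finset.sum_congr rfl
    intro ε _
    congr 2
    unfold mkS
    rw [Fintype.sum_prod_type]
    rfl
  rw [h2, Fintype.card_prod, Fintype.card_fin] at h1
  have h3 : (1 / 2 ^ Fintype.card J : ℝ) ^ L = 1 / 2 ^ (L * Fintype.card J) := by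
    rw [div_pow, one_pow, ← pow_mul, mul_comm]
  rw [h3]
  exact h1

/-- Matrix Khintchine, tilted form -/
theorem mk_tilt {X : J → Matrix n n ℝ} (hX : ∀ j, (X j)ᵀ = X j) {s : ℝ} (hs0 : 0 ≤ s)
    (hs : ∀ v : n → ℝ, ∑ j, mknsq (X j *ᵥ v) ≤ s * mknsq v) {u : (J → Bool) → ℝ}
    (hu : ∀ g, |u g| ≤ 1) (L : ℕ) :
    ∑ ω : Fin L → (J → Bool) × Bool, mkpw (mkw u) ω *
        opn (∑ l, sg (ω l).2 • mkS X (ω l).1) ^ 2 ≤
      2 * opn ((L / 2 : ℝ) • ((1 / 2 ^ Fintype.card J : ℝ) • ∑ g, u g • mkS X g)) ^ 2 +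
      48 * (1 + Real.log (Fintype.card n)) * (L * s) := by
  set T := Matrix.toEuclideanCLM (n := n) (𝕜 := ℝ) with hT
  have h1 := mk_symm (mkw_nonneg hu) (mkw_sum u) L
    (fun a : (J → Bool) × Bool => T (sg a.2 • mkS X a.1))
  have e1 : ∀ ω : Fin L → (J → Bool) × Bool, ‖∑ l, T (sg (ω l).2 • mkS X (ω l).1)‖ =
      opn (∑ l, sg (ω l).2 • mkS X (ω l).1) := by
    intro ω
    unfold opn
    rw [map_sum]
  have e2 : ‖(L : ℝ) • ∑ a : (J → Bool) × Bool, mkw u a • T (sg a.2 • mkS X a.1)‖ =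
      opn ((L / 2 : ℝ) • ((1 / 2 ^ Fintype.card J : ℝ) • ∑ g, u g • mkS X g)) := by
    unfold opn
    rw [← hT]
    congr 1
    have h2 := congrArg T (mkw_mean u (mkS X))
    rw [map_sum] at h2
    simp only [map_smul] at h2 ⊢
    rw [h2, smul_smul]
    congr 1
    ring
  have e3 : ∀ (ε : Fin L → Bool) (ω : Fin L → (J → Bool) × Bool),
      ‖∑ l, sg (ε l) • T (sg (ω l).2 • mkS X (ω l).1)‖ =
      opn (∑ l, sg (mkx (ω l).2 (ε l)) • mkS X (ω l).1) := by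
    intro ε ω
    unfold opn
    rw [← hT, map_sum]
    congr 1
    apply Finset.sum_congr rfl
    intro l _
    rw [map_smul, map_smul, smul_smul, sg_mkx, mul_comm]
  simp only [e1, e3] at h1
  rw [e2] at h1
  refine h1.trans (add_le_add le_rfl ?_)
  have h4 : 1 / 2 ^ L * ∑ ε : Fin L → Bool, ∑ ω : Fin L → (J → Bool) × Bool,
      mkpw (mkw u) ω * opn (∑ l, sg (mkx (ω l).2 (ε l)) • mkS X (ω l).1) ^ 2 ≤
      6 * (1 + Real.log (Fintype.card n)) * (L * s) := by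
    have h5 : ∑ ε : Fin L → Bool, ∑ ω : Fin L → (J → Bool) × Bool,
        mkpw (mkw u) ω * opn (∑ l, sg (mkx (ω l).2 (ε l)) • mkS X (ω l).1) ^ 2 =
        ∑ ε : Fin L → Bool, (1 / 2 ^ Fintype.card J) ^ L *
          ∑ g : Fin L → J → Bool, opn (∑ l, mkS X (g l)) ^ 2 := by
      rw [Finset.sum_comm]
      have h6 : ∀ ω : Fin L → (J → Bool) × Bool, ∑ ε : Fin L → Bool,
          mkpw (mkw u) ω * opn (∑ l, sg (mkx (ω l).2 (ε l)) • mkS X (ω l).1) ^ 2 =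
          mkpw (mkw u) ω * ∑ ε : Fin L → Bool, opn (∑ l, sg (ε l) • mkS X (ω l).1) ^ 2 := by
        intro ω
        rw [← Finset.mul_sum]
        congr 1
        exact mk_eps_shift (fun l => (ω l).2)
          (fun ε => opn (∑ l, sg (ε l) • mkS X (ω l).1) ^ 2)
      simp only [h6]
      rw [mk_sum_tail u (fun g => ∑ ε : Fin L → Bool, opn (∑ l, sg (ε l) • mkS X (g l)) ^ 2),
        Finset.sum_comm, Finset.mul_sum]
      apply Finset.sum_congr rfl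
      intro ε _
      congr 1
      simp only [mk_smul_S]
      exact mk_g_shift ε (fun g => opn (∑ l, mkS X (g l)) ^ 2)
    rw [h5, Finset.sum_const, Finset.card_univ, Fintype.card_fun, Fintype.card_bool,
      Fintype.card_fin, nsmul_eq_mul]
    push_cast
    have h7 := mk_uniform hX hs0 hs L
    have h8 : (1 : ℝ) / 2 ^ L * (2 ^ L * ((1 / 2 ^ Fintype.card J) ^ L *
        ∑ g : Fin L → J → Bool, opn (∑ l, mkS X (g l)) ^ 2)) =
        (1 / 2 ^ Fintype.card J) ^ L *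
        ∑ g : Fin L → J → Bool, opn (∑ l, mkS X (g l)) ^ 2 := by
      field_simp
    rw [h8]
    exact h7
  linarith

/-- lower bound by the mean (Jensen) -/
theorem mk_tilt_lower (X : J → Matrix n n ℝ) {u : (J → Bool) → ℝ}
    (hu : ∀ g, |u g| ≤ 1) (L : ℕ) (v : n → ℝ) :
    mknsq (((L / 2 : ℝ) • ((1 / 2 ^ Fintype.card J : ℝ) • ∑ g, u g • mkS X g)) *ᵥ v) ≤
      ∑ ω : Fin L → (J → Bool) × Bool, mkpw (mkw u) ω *
        mknsq ((∑ l, sg (ω l).2 • mkS X (ω l).1) *ᵥ v) := by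
  have hP0 := mkpw_nonneg (mkw_nonneg hu) (L := L)
  have hP1 := mkpw_sum (mkw_sum u) L
  let Y : (J → Bool) × Bool → EuclideanSpace ℝ n :=
    fun a => WithLp.toLp 2 ((sg a.2 • mkS X a.1) *ᵥ v)
  have h1 := mk_jensen hP0 hP1 (0 : EuclideanSpace ℝ n)
    (fun ω : Fin L → (J → Bool) × Bool => ∑ l, Y (ω l))
  rw [mk_mean (mkw_sum u) L Y, zero_sub, norm_neg] at h1
  simp only [zero_sub, norm_neg] at h1
  have e1 : ∀ ω : Fin L → (J → Bool) × Bool, ‖∑ l, Y (ω l)‖ ^ 2 =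
      mknsq ((∑ l, sg (ω l).2 • mkS X (ω l).1) *ᵥ v) := by
    intro ω
    rw [← mknsq_eq]
    congr 2
    rw [Matrix.sum_mulVec, WithLp.toLp_sum]
  have e2 : ‖(L : ℝ) • ∑ a, mkw u a • Y a‖ ^ 2 =
      mknsq (((L / 2 : ℝ) • ((1 / 2 ^ Fintype.card J : ℝ) • ∑ g, u g • mkS X g)) *ᵥ v) := by
    rw [← mknsq_eq]
    congr 2
    have h2 := mkw_mean u (fun g => WithLp.toLp 2 (mkS X g *ᵥ v))
    have h3 : ∀ a : (J → Bool) × Bool, Y a = sg a.2 • WithLp.toLp 2 (mkS X a.1 *ᵥ v) := by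
      intro a
      show WithLp.toLp 2 ((sg a.2 • mkS X a.1) *ᵥ v) = _
      rw [Matrix.smul_mulVec, WithLp.toLp_smul]
    simp only [h3]
    rw [h2, Matrix.smul_mulVec, Matrix.smul_mulVec, Matrix.sum_mulVec, WithLp.toLp_smul,
      WithLp.toLp_smul, WithLp.toLp_sum]
    simp only [Matrix.smul_mulVec, WithLp.toLp_smul]
    rw [smul_smul]
    congr 1
    ring
  simp only [e1] at h1
  rw [e2] at h1
  exact h1

end Tilt

end Pool.Agent.LR2
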