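import Pool.Agent.Lib_helper59.LR2.State

/-!
# Cheap factorisations of a kernel of small rank
-/

set_option autoImplicit false

open Finset Matrix

namespace Pool.Agent.LR2

variable {X Y : Type} [Fintype X] [Fintype Y]

theorem ext_sum {n r : ℕ} (h : n ≤ r) (f : Fin n → ℝ) :
    ∑ k : Fin r, (if h : k.1 < n then f ⟨k.1, h⟩ else 0) = ∑ k, f k := by
  rw [Fin.sum_univ_eq_sum_range (fun i => if h : i < n then f ⟨i, h⟩ else 0) r,
    ← Finset.sum_subset (Finset.range_subset_range.2 h), ← Fin.sum_univ_eq_sum_range]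
  · apply Finset.sum_congr rfl
    intro k _
    simp
  · intro i _ hi
    rw [Finset.mem_range] at hi
    simp [hi]

/-- orthonormal expansion with exactly `r` terms -/
theorem rank_exp (A : Matrix X Y ℝ) (r : ℕ) (hR : A.rank ≤ r) :
    ∃ b : Fin r → X → ℝ, (∀ k, ∑ x, b k x ^ 2 ≤ 1) ∧
      ∀ x y, A x y = ∑ k, (∑ x', b k x' * A x' y) * b k x := by
  obtain ⟨n, b, hn, hb, hexp⟩ := rank_onb A r hR
  refine ⟨fun k x => if h : k.1 < n then b ⟨k.1, h⟩ x else 0, ?_, ?_⟩
  · intro k
    by_cases h : k.1 < n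
    · simp only [h, dite_true]
      exact (hb _).le
    · simp [h]
  · intro x y
    rw [hexp x y, ← ext_sum hn]
    apply Finset.sum_congr rfl
    intro k _
    by_cases h : k.1 < n
    · simp [h]
    · simp [h]

theorem chn_smul_one {n : ℕ} (τ : ℝ) (m : ℕ) :
    chn (fun _ => τ • (1 : Matrix (Fin n) (Fin n) ℝ)) m = τ ^ m • (1 : Matrix (Fin n) (Fin n) ℝ) := by
  induction m with
  | zero => simp [chn]
  | succ m ih =>
    show chn (fun _ => τ • (1 : Matrix (Fin n) (Fin n) ℝ)) m * (τ • 1) = _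
    rw [ih, Matrix.smul_mul, Matrix.one_mul, smul_smul, pow_succ]

theorem fro_smul_one {n : ℕ} (τ : ℝ) : fro (τ • (1 : Matrix (Fin n) (Fin n) ℝ)) = τ ^ 2 * n := by
  unfold fro
  have h : ∀ i : Fin n, ∑ j, (τ • (1 : Matrix (Fin n) (Fin n) ℝ)) i j ^ 2 = τ ^ 2 := by
    intro i
    rw [Finset.sum_eq_single i]
    · simp
    · intro j _ hj
      simp [Matrix.one_apply, Ne.symm hj]
    · simp
  simp only [h]
  simp
  ring

theorem start_cost_pr (M : Matrix X Y ℝ) (r : ℕ) (hr : 1 ≤ r) (hrank : M.rank ≤ r)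
    (hM : ∀ x y, |M x y| ≤ 1) (m : ℕ) {α : X → ℝ} {β : Y → ℝ} (hα : IsPr α) (hβ : IsPr β) :
    ∃ F : Fac X Y r, F.Val m M α β ∧ F.cost m α β ≤ (r : ℝ) ^ (((m : ℝ) + 1) / ((m : ℝ) + 2)) := by
  classical
  set A : Matrix X Y ℝ := Matrix.of fun x y => Real.sqrt (α x) * M x y * Real.sqrt (β y) with hA
  have hArank : A.rank ≤ r := by
    have h1 : A = (Matrix.diagonal fun x => Real.sqrt (α x)) * M *
        (Matrix.diagonal fun y => Real.sqrt (β y)) := by
      ext x y
      rw [Matrix.mul_diagonal, Matrix.diagonal_mul]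
      rfl
    rw [h1]
    calc _ ≤ ((Matrix.diagonal fun x => Real.sqrt (α x)) * M).rank := Matrix.rank_mul_le_left _ _
      _ ≤ M.rank := Matrix.rank_mul_le_right _ _
      _ ≤ r := hrank
  obtain ⟨e, he, hexp⟩ := rank_exp A r hArank
  set p : Fin r → Y → ℝ := fun k y => ∑ x', e k x' * A x' y with hp
  have hexp' : ∀ x y, A x y = ∑ k, p k y * e k x := hexp
  have hr0 : (0 : ℝ) < r := by exact_mod_cast hr
  set τ2 : ℝ := (r : ℝ) ^ (-(1 / ((m : ℝ) + 2))) with hτ2
  have hτ2pos : 0 < τ2 := Real.rpow_pos_of_pos hr0 _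
  set τ : ℝ := Real.sqrt τ2 with hτ
  have hτpos : 0 < τ := Real.sqrt_pos.2 hτ2pos
  have hτsq : τ ^ 2 = τ2 := Real.sq_sqrt hτ2pos.le
  let F : Fac X Y r :=
    { p := fun _ => 0
      q := fun _ => 0
      a := fun x k => if α x = 0 then 0 else τ * e k x / Real.sqrt (α x)
      b := fun y k => if β y = 0 then 0 else (τ⁻¹) ^ (m + 1) * p k y / Real.sqrt (β y)
      Z := fun _ => τ • (1 : Matrix (Fin r) (Fin r) ℝ) }
  refine ⟨F, ?_, ?_⟩
  · intro x y hx hy
    have hx' : 0 < Real.sqrt (α x) := Real.sqrt_pos.2 (lt_of_le_of_ne (hα.nonneg x) (Ne.symm hx))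
    have hy' : 0 < Real.sqrt (β y) := Real.sqrt_pos.2 (lt_of_le_of_ne (hβ.nonneg y) (Ne.symm hy))
    have h1 : F.bil m x y = τ ^ m * ∑ k, F.a x k * F.b y k := by
      show F.a x ⬝ᵥ (chn (fun _ => τ • (1 : Matrix (Fin r) (Fin r) ℝ)) m *ᵥ F.b y) = _
      rw [chn_smul_one, Matrix.smul_mulVec, Matrix.one_mulVec, dotProduct_smul]
      rfl
    have h2 : ∀ k, F.a x k * F.b y k =
        (τ * (τ⁻¹) ^ (m + 1) / (Real.sqrt (α x) * Real.sqrt (β y))) * (p k y * e k x) := by
      intro k
      show (if α x = 0 then 0 else τ * e k x / Real.sqrt (α x)) *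
        (if β y = 0 then 0 else (τ⁻¹) ^ (m + 1) * p k y / Real.sqrt (β y)) = _
      rw [if_neg hx, if_neg hy]
      field_simp
    rw [h1]
    simp only [h2]
    rw [← Finset.mul_sum, ← hexp' x y]
    show M x y = 0 + 0 + τ ^ m * (τ * (τ⁻¹) ^ (m + 1) / (Real.sqrt (α x) * Real.sqrt (β y)) *
      (Real.sqrt (α x) * M x y * Real.sqrt (β y)))
    have h3 : τ ^ m * (τ * (τ⁻¹) ^ (m + 1)) = 1 := by
      rw [← mul_assoc, ← pow_succ, ← mul_pow, mul_inv_cancel₀ hτpos.ne', one_pow]
    have h4 : τ ^ m * (τ * (τ⁻¹) ^ (m + 1) / (Real.sqrt (α x) * Real.sqrt (β y)) *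
        (Real.sqrt (α x) * M x y * Real.sqrt (β y))) =
        (τ ^ m * (τ * (τ⁻¹) ^ (m + 1))) * M x y := by
      field_simp
    rw [h4, h3]
    ring
  · have c1 : ∑ x, α x * nsq (F.a x) ≤ τ2 * r := by
      have h1 : ∀ x, α x * nsq (F.a x) ≤ τ2 * ∑ k, e k x ^ 2 := by
        intro x
        by_cases hx : α x = 0
        · rw [hx, zero_mul]
          positivity
        · have hx' : 0 < α x := lt_of_le_of_ne (hα.nonneg x) (Ne.symm hx)
          have h2 : nsq (F.a x) = τ2 / α x * ∑ k, e k x ^ 2 := by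
            unfold nsq
            rw [Finset.mul_sum]
            apply Finset.sum_congr rfl
            intro k _
            show (if α x = 0 then 0 else τ * e k x / Real.sqrt (α x)) ^ 2 = _
            rw [if_neg hx, div_pow, mul_pow, Real.sq_sqrt hx'.le, hτsq]
            ring
          rw [h2]
          apply le_of_eq
          field_simp
      calc ∑ x, α x * nsq (F.a x) ≤ ∑ x, τ2 * ∑ k, e k x ^ 2 := Finset.sum_le_sum fun x _ => h1 x
        _ = τ2 * ∑ k, ∑ x, e k x ^ 2 := by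
          rw [← Finset.mul_sum, Finset.sum_comm]
        _ ≤ τ2 * ∑ k : Fin r, 1 := by
          apply mul_le_mul_of_nonneg_left _ hτ2pos.le
          exact Finset.sum_le_sum fun k _ => he k
        _ = τ2 * r := by simp
    have c2 : ∑ j ∈ range m, fro (F.Z j) = m * (τ2 * r) := by
      have h1 : ∀ j, fro (F.Z j) = τ2 * r := by
        intro j
        show fro (τ • (1 : Matrix (Fin r) (Fin r) ℝ)) = _
        rw [fro_smul_one, hτsq]
      simp only [h1]
      rw [Finset.sum_const, Finset.card_range, nsmul_eq_mul]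
    have c3 : ∑ y, β y * nsq (F.b y) ≤ (τ2⁻¹) ^ (m + 1) := by
      have hpA : ∀ y, ∑ k, p k y ^ 2 = ∑ x, A x y ^ 2 := by
        intro y
        have h1 : ∀ x, A x y ^ 2 = ∑ k, p k y * (e k x * A x y) := by
          intro x
          calc A x y ^ 2 = A x y * A x y := by ring
            _ = (∑ k, p k y * e k x) * A x y := by rw [← hexp' x y]
            _ = _ := by
              rw [Finset.sum_mul]
              apply Finset.sum_congr rfl
              intro k _
              ring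
        simp only [h1]
        rw [Finset.sum_comm]
        apply Finset.sum_congr rfl
        intro k _
        rw [← Finset.mul_sum]
        simp only [hp]
        ring
      have hA2 : ∀ x y, A x y ^ 2 ≤ α x * β y := by
        intro x y
        show (Real.sqrt (α x) * M x y * Real.sqrt (β y)) ^ 2 ≤ _
        rw [mul_pow, mul_pow, Real.sq_sqrt (hα.nonneg x), Real.sq_sqrt (hβ.nonneg y)]
        have h1 : M x y ^ 2 ≤ 1 := by
          rw [← sq_abs]
          have := hM x y
          have h0 := abs_nonneg (M x y)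
          nlinarith
        have h2 := mul_nonneg (hα.nonneg x) (hβ.nonneg y)
        calc α x * M x y ^ 2 * β y = (α x * β y) * M x y ^ 2 := by ring
          _ ≤ (α x * β y) * 1 := mul_le_mul_of_nonneg_left h1 h2
          _ = _ := by ring
      have h1 : ∀ y, β y * nsq (F.b y) ≤ (τ2⁻¹) ^ (m + 1) * ∑ k, p k y ^ 2 := by
        intro y
        by_cases hy : β y = 0
        · rw [hy, zero_mul]
          positivity
        · have hy' : 0 < β y := lt_of_le_of_ne (hβ.nonneg y) (Ne.symm hy)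
          have h2 : nsq (F.b y) = (τ2⁻¹) ^ (m + 1) / β y * ∑ k, p k y ^ 2 := by
            unfold nsq
            rw [Finset.mul_sum]
            apply Finset.sum_congr rfl
            intro k _
            show (if β y = 0 then 0 else (τ⁻¹) ^ (m + 1) * p k y / Real.sqrt (β y)) ^ 2 = _
            rw [if_neg hy, div_pow, mul_pow, Real.sq_sqrt hy'.le, ← pow_mul, mul_comm (m + 1) 2,
              pow_mul, inv_pow, hτsq]
            ring
          rw [h2]
          apply le_of_eq
          field_simp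
      calc ∑ y, β y * nsq (F.b y) ≤ ∑ y, (τ2⁻¹) ^ (m + 1) * ∑ k, p k y ^ 2 :=
            Finset.sum_le_sum fun y _ => h1 y
        _ = (τ2⁻¹) ^ (m + 1) * ∑ y, ∑ x, A x y ^ 2 := by
          rw [← Finset.mul_sum]
          simp only [hpA]
        _ ≤ (τ2⁻¹) ^ (m + 1) * ∑ y, ∑ x, α x * β y := by
          apply mul_le_mul_of_nonneg_left _ (by positivity)
          exact Finset.sum_le_sum fun y _ => Finset.sum_le_sum fun x _ => hA2 x y
        _ = (τ2⁻¹) ^ (m + 1) := by
          have : ∑ y, ∑ x, α x * β y = 1 := by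
            simp only [← Finset.sum_mul, hα.sum, one_mul, hβ.sum]
          rw [this, mul_one]
    have hm2 : (0 : ℝ) < (m : ℝ) + 2 := by positivity
    have r1 : τ2 * r = (r : ℝ) ^ (((m : ℝ) + 1) / ((m : ℝ) + 2)) := by
      rw [hτ2]
      nth_rewrite 2 [← Real.rpow_one (r : ℝ)]
      rw [← Real.rpow_add hr0]
      congr 1
      field_simp
      ring
    have r2 : (τ2⁻¹) ^ (m + 1) = (r : ℝ) ^ (((m : ℝ) + 1) / ((m : ℝ) + 2)) := by
      rw [hτ2, ← Real.rpow_neg hr0.le, neg_neg, ← Real.rpow_natCast, ← Real.rpow_mul hr0.le]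
      congr 1
      push_cast
      field_simp
    show (∑ x, α x * nsq (F.a x) + ∑ j ∈ range m, fro (F.Z j) + ∑ y, β y * nsq (F.b y)) /
      (m + 2) ≤ _
    rw [div_le_iff₀ hm2, c2]
    rw [r1] at c1 ⊢
    rw [r2] at c3
    nlinarith [c1, c3]

end Pool.Agent.LR2
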