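import Pool.Agent.Lib_helper59.LR2.BLW2
import Pool.Agent.Lib_helper59.LR2.FrameDefs
import Pool.Agent.Lib_helper59.LR2.TGen

/-!
# The inequalities (T'), (T1)-(T3) in a frame
-/

set_option autoImplicit false
set_option linter.unusedSectionVars false

open Finset Matrix

namespace Pool.Agent.LR2

section Lin

variable {ι κ X : Type} [Fintype ι] [DecidableEq ι] [Fintype κ] [Fintype X]

theorem tf_dot_self_nonneg (v : κ → ℝ) : 0 ≤ v ⬝ᵥ v := by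
  unfold dotProduct
  exact Finset.sum_nonneg fun i _ => mul_self_nonneg _

theorem tf_zm2_apply (p : X → ℝ) (z : X → ι → ℝ) (i j : ι) :
    zm2 p z i j = ∑ x, p x * (z x i * z x j) := by
  unfold zm2
  rw [Matrix.sum_apply]
  rfl

theorem tf_quad (p : X → ℝ) (z : X → ι → ℝ) (K : Matrix ι ι ℝ) :
    ∑ x, p x * (z x ⬝ᵥ (K *ᵥ z x)) = ∑ i, ∑ j, K i j * zm2 p z i j := by
  simp only [tf_zm2_apply, Finset.mul_sum]
  have h : ∀ x, p x * (z x ⬝ᵥ (K *ᵥ z x)) = ∑ i, ∑ j, K i j * (p x * (z x i * z x j)) := by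
    intro x
    unfold dotProduct Matrix.mulVec dotProduct
    rw [Finset.mul_sum]
    apply Finset.sum_congr rfl
    intro i _
    rw [Finset.mul_sum, Finset.mul_sum]
    apply Finset.sum_congr rfl
    intro j _
    ring
  simp only [h]
  rw [Finset.sum_comm]
  apply Finset.sum_congr rfl
  intro i _
  rw [Finset.sum_comm]

theorem tf_tr_one (K : Matrix ι ι ℝ) : ∑ i, ∑ j, K i j * (1 : Matrix ι ι ℝ) i j = K.trace := by
  unfold Matrix.trace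
  apply Finset.sum_congr rfl
  intro i _
  rw [Finset.sum_eq_single i]
  · simp
  · intro j _ hj
    rw [Matrix.one_apply_ne (Ne.symm hj), mul_zero]
  · intro h
    exact absurd (Finset.mem_univ i) h

theorem tf_sq (K : Matrix ι ι ℝ) (v : ι → ℝ) :
    (K *ᵥ v) ⬝ᵥ (K *ᵥ v) = v ⬝ᵥ ((Kᵀ * K) *ᵥ v) := by
  rw [← Matrix.mulVec_mulVec, Matrix.dotProduct_mulVec v Kᵀ, Matrix.vecMul_transpose]

theorem tf_tr_sq (K : Matrix ι ι ℝ) : (Kᵀ * K).trace = ∑ i, ∑ j, K i j ^ 2 := by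
  rw [Finset.sum_comm]
  unfold Matrix.trace
  apply Finset.sum_congr rfl
  intro j _
  rw [Matrix.diag_apply, Matrix.mul_apply]
  apply Finset.sum_congr rfl
  intro i _
  rw [Matrix.transpose_apply]
  ring

/-- Bessel -/
theorem tf_bessel {o : ι → κ → ℝ} (ho : ∀ i j, o i ⬝ᵥ o j = if i = j then 1 else 0) (v : κ → ℝ) :
    ∑ i, (o i ⬝ᵥ v) ^ 2 ≤ v ⬝ᵥ v := by
  set O : Matrix ι κ ℝ := Matrix.of o with hO
  have h1 : O * Oᵀ = 1 := by
    ext i j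
    rw [Matrix.mul_apply, Matrix.one_apply]
    exact ho i j
  set c : ι → ℝ := O *ᵥ v with hc
  have h2 : ∑ i, (o i ⬝ᵥ v) ^ 2 = c ⬝ᵥ c := by
    unfold dotProduct
    apply Finset.sum_congr rfl
    intro i _
    rw [sq]
    rfl
  have h3 : v ⬝ᵥ (Oᵀ *ᵥ c) = c ⬝ᵥ c := by
    rw [Matrix.dotProduct_mulVec, Matrix.vecMul_transpose]
  have h4 : (Oᵀ *ᵥ c) ⬝ᵥ (Oᵀ *ᵥ c) = c ⬝ᵥ c := by
    rw [Matrix.dotProduct_mulVec, Matrix.vecMul_transpose, Matrix.mulVec_mulVec, h1,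
      Matrix.one_mulVec]
  have h5 := tf_dot_self_nonneg (v - Oᵀ *ᵥ c)
  rw [sub_dotProduct, dotProduct_sub, dotProduct_sub, dotProduct_comm (Oᵀ *ᵥ c) v, h3, h4] at h5
  rw [h2]
  linarith

end Lin

variable {X Y : Type} [Fintype X] [Fintype Y] [Nonempty X] [Nonempty Y] {n : ℕ}
variable {M : X → Y → ℝ} {μ₀ : X → ℝ} {ν₀ : Y → ℝ} {lam Lam : ℝ} {m : ℕ}
  {α : X → ℝ} {β : Y → ℝ} {F : Fac X Y n}
variable {ι : Type} [Fintype ι] [DecidableEq ι] {o : ι → Fin n → ℝ} {s : ι → ℝ} {ss : ℝ}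

theorem St.kap_sup_pr (h : St M μ₀ ν₀ lam Lam m α β F) {p : X → ℝ} (hp : IsPr p) {t : ℝ}
    (hle : ∀ x, p x ≤ Real.exp t * α x) : Kap M lam Lam m α β F p (t + 2) := by
  intro F' hF'
  have h1 := h.sharp hp h.hβ (t := 0) hle (fun y => by rw [Real.exp_zero, one_mul]) F'
    (hF'.mono (ac_of_le hp hle) fun _ hy => hy)
  rw [em_ctd hp h.hβ] at h1
  have h2 : lam * (t + 0 + 2) = lam * (t + 2) := by ring
  rw [h2] at h1
  linarith

theorem St.kap_kl_pr (h : St M μ₀ ν₀ lam Lam m α β F) {p : X → ℝ} (hp : IsPr p)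
    (hac : AC p α) : Kap M lam Lam m α β F p (2 * KL p α + 6) := by
  intro F' hF'
  have h1 := h.sharp_kl hp h.hβ hac (fun _ hy => hy) F' hF'
  rw [em_ctd hp h.hβ, KL_self] at h1
  linarith

/-- the matrix of the frame -/
noncomputable def tfW (o : ι → Fin n → ℝ) (s : ι → ℝ) : Matrix ι (Fin n) ℝ :=
  Matrix.of fun i k => (Real.sqrt (s i))⁻¹ * o i k

theorem tf_zc (a : X → Fin n → ℝ) (o : ι → Fin n → ℝ) (s : ι → ℝ) (x : X) :
    zc a o s x = tfW o s *ᵥ a x := by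
  funext i
  unfold zc
  show (o i ⬝ᵥ a x) / Real.sqrt (s i) = ∑ k, (Real.sqrt (s i))⁻¹ * o i k * a x k
  rw [div_eq_inv_mul]
  unfold dotProduct
  rw [Finset.mul_sum]
  apply Finset.sum_congr rfl
  intro k _
  ring

theorem tf_Wv (v : Fin n → ℝ) (i : ι) : (tfW o s *ᵥ v) i = (Real.sqrt (s i))⁻¹ * (o i ⬝ᵥ v) := by
  show ∑ k, (Real.sqrt (s i))⁻¹ * o i k * v k = _
  unfold dotProduct
  rw [Finset.mul_sum]
  apply Finset.sum_congr rfl
  intro k _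
  ring

theorem Frame.spos {a : X → Fin n → ℝ} (hf : Frame α a o s ss) (i : ι) : 0 < s i :=
  lt_of_lt_of_le hf.pos (hf.le i)

theorem tf_W1 {a : X → Fin n → ℝ} (hf : Frame α a o s ss) (v : Fin n → ℝ) :
    (tfW o s *ᵥ v) ⬝ᵥ (tfW o s *ᵥ v) ≤ 1 / ss * (v ⬝ᵥ v) := by
  have h1 := tf_bessel hf.orth v
  calc (tfW o s *ᵥ v) ⬝ᵥ (tfW o s *ᵥ v) = ∑ i, (s i)⁻¹ * (o i ⬝ᵥ v) ^ 2 := by
        unfold dotProduct
        apply Finset.sum_congr rfl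
        intro i _
        have h2 := tf_Wv (o := o) (s := s) v i
        unfold dotProduct at h2
        rw [h2]
        have h3 : (Real.sqrt (s i))⁻¹ * (Real.sqrt (s i))⁻¹ = (s i)⁻¹ := by
          rw [← mul_inv, Real.mul_self_sqrt (hf.spos i).le]
        calc _ = ((Real.sqrt (s i))⁻¹ * (Real.sqrt (s i))⁻¹) * (∑ k, o i k * v k) ^ 2 := by ring
          _ = _ := by rw [h3]
    _ ≤ ∑ i, 1 / ss * (o i ⬝ᵥ v) ^ 2 := by
        apply Finset.sum_le_sum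
        intro i _
        apply mul_le_mul_of_nonneg_right _ (sq_nonneg _)
        rw [one_div]
        exact inv_anti₀ hf.pos (hf.le i)
    _ = 1 / ss * ∑ i, (o i ⬝ᵥ v) ^ 2 := by rw [Finset.mul_sum]
    _ ≤ _ := mul_le_mul_of_nonneg_left h1 (by have := hf.pos; positivity)

theorem tf_W2 {a : X → Fin n → ℝ} (hf : Frame α a o s ss) (u : ι → ℝ) :
    ((tfW o s)ᵀ *ᵥ u) ⬝ᵥ ((tfW o s)ᵀ *ᵥ u) ≤ 1 / ss * (u ⬝ᵥ u) := by
  have h1 : tfW o s * (tfW o s)ᵀ = Matrix.diagonal fun i => (s i)⁻¹ := by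
    ext i j
    rw [Matrix.mul_apply]
    have h2 : ∀ k, tfW o s i k * (tfW o s)ᵀ k j =
        ((Real.sqrt (s i))⁻¹ * (Real.sqrt (s j))⁻¹) * (o i k * o j k) := by
      intro k
      show (Real.sqrt (s i))⁻¹ * o i k * ((Real.sqrt (s j))⁻¹ * o j k) = _
      ring
    simp only [h2]
    rw [← Finset.mul_sum]
    have h3 := hf.orth i j
    unfold dotProduct at h3
    rw [h3]
    rcases eq_or_ne i j with h | h
    · subst h
      rw [if_pos rfl, Matrix.diagonal_apply_eq, mul_one, ← mul_inv,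
        Real.mul_self_sqrt (hf.spos i).le]
    · rw [if_neg h, Matrix.diagonal_apply_ne _ h, mul_zero]
  rw [Matrix.dotProduct_mulVec, Matrix.vecMul_transpose, Matrix.mulVec_mulVec, h1]
  have h4 : (Matrix.diagonal (fun i => (s i)⁻¹) *ᵥ u) ⬝ᵥ u = ∑ i, (s i)⁻¹ * (u i * u i) := by
    unfold dotProduct
    apply Finset.sum_congr rfl
    intro i _
    rw [Matrix.mulVec_diagonal]
    ring
  rw [h4]
  unfold dotProduct
  rw [Finset.mul_sum]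
  apply Finset.sum_le_sum
  intro i _
  apply mul_le_mul_of_nonneg_right _ (mul_self_nonneg _)
  rw [one_div]
  exact inv_anti₀ hf.pos (hf.le i)

theorem tf_mean (p : X → ℝ) (a : X → Fin n → ℝ) :
    ∑ x, p x • zc a o s x = tfW o s *ᵥ vmean p a := by
  unfold vmean
  simp only [tf_zc]
  rw [← Matrix.mulVecLin_apply, map_sum]
  apply Finset.sum_congr rfl
  intro x _
  rw [map_smul, Matrix.mulVecLin_apply]

theorem tf_zm2_one {a : X → Fin n → ℝ} (hf : Frame α a o s ss) : zm2 α (zc a o s) = 1 := by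
  ext i j
  rw [tf_zm2_apply, Matrix.one_apply]
  have h1 : ∀ x, α x * (zc a o s x i * zc a o s x j) =
      (α x * ((o i ⬝ᵥ a x) * (o j ⬝ᵥ a x))) / (Real.sqrt (s i) * Real.sqrt (s j)) := by
    intro x
    unfold zc
    ring
  simp only [h1]
  rw [← Finset.sum_div, hf.mom]
  rcases eq_or_ne i j with h | h
  · subst h
    rw [if_pos rfl, if_pos rfl, Real.mul_self_sqrt (hf.spos i).le, div_self (hf.spos i).ne']
  · rw [if_neg h, if_neg h, zero_div]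

theorem tf_conj (W : Matrix ι (Fin n) ℝ) (K : Matrix ι ι ℝ) (v : Fin n → ℝ) :
    v ⬝ᵥ ((Wᵀ * K * W) *ᵥ v) = (W *ᵥ v) ⬝ᵥ (K *ᵥ (W *ᵥ v)) := by
  rw [← Matrix.mulVec_mulVec, ← Matrix.mulVec_mulVec, Matrix.dotProduct_mulVec v Wᵀ,
    Matrix.vecMul_transpose]

/-- (T') -/
theorem St.T_frame_pr (h : St M μ₀ ν₀ lam Lam (m + 1) α β F) (hf : Frame α F.a o s ss)
    {K : Matrix ι ι ℝ} (hK : Kᵀ = K) {c θ : ℝ} (hθ : 0 < θ)
    (hc : ∀ w : ι → ℝ, |w ⬝ᵥ (K *ᵥ w)| ≤ c * (w ⬝ᵥ w)) (hθc : θ * c ≤ 1 / 2) {p : X → ℝ}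
    (hp : IsPr p) {κ : ℝ} (hκ : Kap M lam Lam (m + 1) α β F p κ) :
    ((∑ x, p x • zc F.a o s x) ⬝ᵥ (∑ x, p x • zc F.a o s x)) / θ +
      ∑ x, p x * ((zc F.a o s x - ∑ x, p x • zc F.a o s x) ⬝ᵥ
        (K *ᵥ (zc F.a o s x - ∑ x, p x • zc F.a o s x))) - K.trace ≤
      2 * θ * ∑ i, ∑ j, K i j ^ 2 + (m + 3) * (lam / Lam) / ss * κ / θ := by
  have hss := hf.pos
  set W := tfW o s with hW
  set G : Matrix (Fin n) (Fin n) ℝ := (θ * ss) • (Wᵀ * K * W) with hG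
  have hGt : Gᵀ = G := by
    rw [hG, Matrix.transpose_smul, Matrix.transpose_mul, Matrix.transpose_mul,
      Matrix.transpose_transpose, hK, Matrix.mul_assoc]
  have hGq : ∀ v : Fin n → ℝ, v ⬝ᵥ (G *ᵥ v) = θ * ss * ((W *ᵥ v) ⬝ᵥ (K *ᵥ (W *ᵥ v))) := by
    intro v
    rw [hG, Matrix.smul_mulVec, dotProduct_smul, smul_eq_mul, tf_conj]
  have hb : ∀ v : Fin n → ℝ, |v ⬝ᵥ (G *ᵥ v)| ≤ 1 / 2 * (v ⬝ᵥ v) := by
    intro v
    rw [hGq, abs_mul, abs_of_pos (by positivity)]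
    have h1 := hc (W *ᵥ v)
    have h2 := tf_W1 hf v
    have h3 := tf_dot_self_nonneg (W *ᵥ v)
    have h4 := tf_dot_self_nonneg v
    have h5 : θ * ss * |(W *ᵥ v) ⬝ᵥ (K *ᵥ (W *ᵥ v))| ≤
        θ * ss * (c * ((W *ᵥ v) ⬝ᵥ (W *ᵥ v))) := mul_le_mul_of_nonneg_left h1 (by positivity)
    rcases le_or_gt 0 c with hc0 | hc0
    · calc _ ≤ θ * ss * (c * ((W *ᵥ v) ⬝ᵥ (W *ᵥ v))) := h5
        _ ≤ θ * ss * (c * (1 / ss * (v ⬝ᵥ v))) := by gcongr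
        _ = (θ * c) * (v ⬝ᵥ v) := by field_simp
        _ ≤ 1 / 2 * (v ⬝ᵥ v) := mul_le_mul_of_nonneg_right hθc h4
    · have h6 : θ * ss * (c * ((W *ᵥ v) ⬝ᵥ (W *ᵥ v))) ≤ 0 := by
        have : c * ((W *ᵥ v) ⬝ᵥ (W *ᵥ v)) ≤ 0 := mul_nonpos_of_nonpos_of_nonneg hc0.le h3
        exact mul_nonpos_of_nonneg_of_nonpos (by positivity) this
      linarith
  have hT := h.T_gen hGt hb hp hκ
  set cm := vmean p F.a with hcm
  -- the mean
  have e0 : ∑ x, p x • zc F.a o s x = W *ᵥ cm := tf_mean p F.a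
  have e1 : ss * ((W *ᵥ cm) ⬝ᵥ (W *ᵥ cm)) ≤ nsq cm := by
    rw [nsq_eq]
    have h1 := mul_le_mul_of_nonneg_left (tf_W1 hf cm) hss.le
    have h2 : ss * (1 / ss * (cm ⬝ᵥ cm)) = cm ⬝ᵥ cm := by field_simp
    rwa [h2] at h1
  -- the quadratic terms
  have e2 : ∑ x, p x * ((F.a x - cm) ⬝ᵥ (G *ᵥ (F.a x - cm))) =
      θ * ss * ∑ x, p x * ((zc F.a o s x - W *ᵥ cm) ⬝ᵥ (K *ᵥ (zc F.a o s x - W *ᵥ cm))) := by
    rw [Finset.mul_sum]
    apply Finset.sum_congr rfl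
    intro x _
    rw [hGq, tf_zc, ← hW, Matrix.mulVec_sub]
    ring
  have e3 : ∑ x, α x * (F.a x ⬝ᵥ (G *ᵥ F.a x)) = θ * ss * K.trace := by
    have h1 : ∑ x, α x * (F.a x ⬝ᵥ (G *ᵥ F.a x)) =
        θ * ss * ∑ x, α x * (zc F.a o s x ⬝ᵥ (K *ᵥ zc F.a o s x)) := by
      rw [Finset.mul_sum]
      apply Finset.sum_congr rfl
      intro x _
      rw [hGq, tf_zc, ← hW]
      ring
    rw [h1, tf_quad, tf_zm2_one hf, tf_tr_one]
  have e4 : ∑ x, α x * ((G *ᵥ F.a x) ⬝ᵥ (G *ᵥ F.a x)) ≤ θ ^ 2 * ss * ∑ i, ∑ j, K i j ^ 2 := by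
    have h1 : ∀ x, α x * ((G *ᵥ F.a x) ⬝ᵥ (G *ᵥ F.a x)) ≤
        θ ^ 2 * ss * (α x * (zc F.a o s x ⬝ᵥ ((Kᵀ * K) *ᵥ zc F.a o s x))) := by
      intro x
      have h2 : G *ᵥ F.a x = (θ * ss) • (Wᵀ *ᵥ (K *ᵥ zc F.a o s x)) := by
        rw [hG, Matrix.smul_mulVec, tf_zc, ← hW, Matrix.mulVec_mulVec, Matrix.mulVec_mulVec,
          Matrix.mul_assoc]
      rw [h2, smul_dotProduct, dotProduct_smul, smul_eq_mul, smul_eq_mul, ← tf_sq]
      have h3 := tf_W2 hf (K *ᵥ zc F.a o s x)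
      have h4 := h.hα.nonneg x
      calc α x * (θ * ss * (θ * ss *
            ((Wᵀ *ᵥ (K *ᵥ zc F.a o s x)) ⬝ᵥ (Wᵀ *ᵥ (K *ᵥ zc F.a o s x)))))
          ≤ α x * (θ * ss * (θ * ss * (1 / ss *
            ((K *ᵥ zc F.a o s x) ⬝ᵥ (K *ᵥ zc F.a o s x))))) := by gcongr
        _ = _ := by field_simp
    refine (Finset.sum_le_sum fun x _ => h1 x).trans (le_of_eq ?_)
    rw [← Finset.mul_sum, tf_quad, tf_zm2_one hf, tf_tr_one, tf_tr_sq]
  rw [e2, e3] at hT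
  rw [e0]
  have h6 : (θ * ss) * (((W *ᵥ cm) ⬝ᵥ (W *ᵥ cm)) / θ +
      ∑ x, p x * ((zc F.a o s x - W *ᵥ cm) ⬝ᵥ (K *ᵥ (zc F.a o s x - W *ᵥ cm))) - K.trace) ≤
      (θ * ss) * (2 * θ * ∑ i, ∑ j, K i j ^ 2 + (m + 3) * (lam / Lam) / ss * κ / θ) := by
    have e5 : (θ * ss) * (((W *ᵥ cm) ⬝ᵥ (W *ᵥ cm)) / θ +
        ∑ x, p x * ((zc F.a o s x - W *ᵥ cm) ⬝ᵥ (K *ᵥ (zc F.a o s x - W *ᵥ cm))) - K.trace) =
        ss * ((W *ᵥ cm) ⬝ᵥ (W *ᵥ cm)) + θ * ss *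
        ∑ x, p x * ((zc F.a o s x - W *ᵥ cm) ⬝ᵥ (K *ᵥ (zc F.a o s x - W *ᵥ cm))) -
        θ * ss * K.trace := by
      field_simp
    have e6 : (θ * ss) * (2 * θ * ∑ i, ∑ j, K i j ^ 2 + (m + 3) * (lam / Lam) / ss * κ / θ) =
        2 * (θ ^ 2 * ss * ∑ i, ∑ j, K i j ^ 2) + (m + 3) * (lam / Lam) * κ := by
      field_simp
    rw [e5, e6]
    linarith
  exact le_of_mul_le_mul_left h6 (by positivity)

/-- (T'), not centred -/
theorem St.T_frame'_pr (h : St M μ₀ ν₀ lam Lam (m + 1) α β F) (hf : Frame α F.a o s ss)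
    {K : Matrix ι ι ℝ} (hK : Kᵀ = K) {c θ : ℝ} (hθ : 0 < θ)
    (hc : ∀ w : ι → ℝ, |w ⬝ᵥ (K *ᵥ w)| ≤ c * (w ⬝ᵥ w)) (hθc : θ * c ≤ 1 / 2) {p : X → ℝ}
    (hp : IsPr p) {κ : ℝ} (hκ : Kap M lam Lam (m + 1) α β F p κ) :
    ∑ x, p x * (zc F.a o s x ⬝ᵥ (K *ᵥ zc F.a o s x)) - K.trace ≤
      2 * θ * ∑ i, ∑ j, K i j ^ 2 + (m + 3) * (lam / Lam) / ss * κ / θ := by
  refine le_trans ?_ (h.T_frame_pr hf hK hθ hc hθc hp hκ)
  set z := zc F.a o s with hz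
  set zm := ∑ x, p x • z x with hzm
  have e1 : ∑ x, p x * (z x ⬝ᵥ (K *ᵥ z x)) =
      ∑ x, p x * ((z x - zm) ⬝ᵥ (K *ᵥ (z x - zm))) + zm ⬝ᵥ (K *ᵥ zm) := by
    have h1 : ∀ x, p x * (z x ⬝ᵥ (K *ᵥ z x)) = p x * ((z x - zm) ⬝ᵥ (K *ᵥ (z x - zm))) +
        2 * (p x * (z x ⬝ᵥ (K *ᵥ zm))) - p x * (zm ⬝ᵥ (K *ᵥ zm)) := by
      intro x
      have h2 : zm ⬝ᵥ (K *ᵥ z x) = z x ⬝ᵥ (K *ᵥ zm) := by
        rw [sym_dot hK, dotProduct_comm]
      rw [Matrix.mulVec_sub, sub_dotProduct, dotProduct_sub, dotProduct_sub, h2]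
      ring
    have h3 : ∑ x, p x * (z x ⬝ᵥ (K *ᵥ zm)) = zm ⬝ᵥ (K *ᵥ zm) := by
      conv_rhs => rw [hzm]
      rw [sum_dotProduct]
      apply Finset.sum_congr rfl
      intro x _
      rw [smul_dotProduct, smul_eq_mul, ← hzm]
    rw [Finset.sum_congr rfl fun x _ => h1 x, Finset.sum_sub_distrib, Finset.sum_add_distrib,
      ← Finset.mul_sum, h3, ← Finset.sum_mul, hp.sum]
    ring
  have e2 : zm ⬝ᵥ (K *ᵥ zm) ≤ (zm ⬝ᵥ zm) / θ := by
    have h1 := (le_abs_self _).trans (hc zm)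
    have h2 := tf_dot_self_nonneg zm
    refine h1.trans ?_
    rw [le_div_iff₀ hθ]
    nlinarith
  rw [e1]
  linarith

theorem tf_psd_sq {K : Matrix ι ι ℝ} (hK : Kᵀ = K) {c : ℝ}
    (hpos : ∀ w : ι → ℝ, 0 ≤ w ⬝ᵥ (K *ᵥ w)) (hc : ∀ w : ι → ℝ, w ⬝ᵥ (K *ᵥ w) ≤ c * (w ⬝ᵥ w)) :
    ∑ i, ∑ j, K i j ^ 2 ≤ c * K.trace := by
  obtain ⟨v, hh, horth, ho, hev⟩ := exists_diag hK
  have h1 : ∀ i, 0 ≤ hh i ∧ hh i ≤ c := by
    intro i
    have h2 := hpos (v i)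
    have h3 := hc (v i)
    rw [hev, dotProduct_smul, horth, if_pos rfl, smul_eq_mul, mul_one] at h2 h3
    rw [mul_one] at h3
    exact ⟨h2, h3⟩
  have h2 : ∀ w : ι → ℝ, (K *ᵥ w) ⬝ᵥ (K *ᵥ w) ≤ c * (w ⬝ᵥ (K *ᵥ w)) := by
    intro w
    rw [diag_sq hK ho hev, diag_bil hK ho hev, Finset.mul_sum]
    apply Finset.sum_le_sum
    intro i _
    have := h1 i
    have h3 : hh i ^ 2 ≤ c * hh i := by nlinarith
    calc hh i ^ 2 * (v i ⬝ᵥ w) ^ 2 ≤ (c * hh i) * (v i ⬝ᵥ w) ^ 2 :=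
          mul_le_mul_of_nonneg_right h3 (sq_nonneg _)
      _ = _ := by ring
  have h3 : ∑ i, ∑ j, K i j ^ 2 = ∑ j, (K *ᵥ Pi.single j 1) ⬝ᵥ (K *ᵥ Pi.single j 1) := by
    rw [Finset.sum_comm]
    apply Finset.sum_congr rfl
    intro j _
    rw [Matrix.mulVec_single_one]
    unfold dotProduct
    apply Finset.sum_congr rfl
    intro i _
    rw [sq]
    rfl
  have h4 : K.trace = ∑ j, (Pi.single j 1 : ι → ℝ) ⬝ᵥ (K *ᵥ Pi.single j 1) := by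
    unfold Matrix.trace
    apply Finset.sum_congr rfl
    intro j _
    rw [Matrix.mulVec_single_one, single_one_dotProduct]
    rfl
  rw [h3, h4, Finset.mul_sum]
  exact Finset.sum_le_sum fun j _ => h2 _

/-- (T1) -/
theorem St.T1_pr (h : St M μ₀ ν₀ lam Lam (m + 1) α β F) (hf : Frame α F.a o s ss)
    {K : Matrix ι ι ℝ} (hK : Kᵀ = K) {c : ℝ} (hc0 : 0 < c)
    (hpos : ∀ w : ι → ℝ, 0 ≤ w ⬝ᵥ (K *ᵥ w))
    (hc : ∀ w : ι → ℝ, w ⬝ᵥ (K *ᵥ w) ≤ c * (w ⬝ᵥ w)) {p : X → ℝ}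
    (hp : IsPr p) {κ : ℝ} (hκ : Kap M lam Lam (m + 1) α β F p κ) :
    ∑ x, p x * (zc F.a o s x ⬝ᵥ (K *ᵥ zc F.a o s x)) ≤
      2 * K.trace + 2 * c * ((m + 3) * (lam / Lam) / ss) * κ := by
  have h1 := h.T_frame'_pr hf hK (c := c) (θ := 1 / (2 * c)) (by positivity)
    (fun w => by rw [abs_of_nonneg (hpos w)]; exact hc w) (by
      apply le_of_eq
      field_simp) hp hκ
  have h2 := tf_psd_sq hK hpos hc
  have h3 : 2 * (1 / (2 * c)) * ∑ i, ∑ j, K i j ^ 2 ≤ K.trace := by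
    calc 2 * (1 / (2 * c)) * ∑ i, ∑ j, K i j ^ 2 ≤ 2 * (1 / (2 * c)) * (c * K.trace) :=
          mul_le_mul_of_nonneg_left h2 (by positivity)
      _ = K.trace := by field_simp
  have h4 : (m + 3) * (lam / Lam) / ss * κ / (1 / (2 * c)) =
      2 * c * ((m + 3) * (lam / Lam) / ss) * κ := by
    field_simp
  rw [h4] at h1
  linarith

/-- means -/
theorem St.T00_pr (h : St M μ₀ ν₀ lam Lam (m + 1) α β F) (hf : Frame α F.a o s ss) {p : X → ℝ}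
    (hp : IsPr p) {κ : ℝ} (hκ : Kap M lam Lam (m + 1) α β F p κ) :
    (∑ x, p x • zc F.a o s x) ⬝ᵥ (∑ x, p x • zc F.a o s x) ≤
      (m + 3) * (lam / Lam) / ss * κ := by
  have h1 := h.T_frame_pr hf (K := 0) (by simp) (c := 0) (θ := 1) one_pos
    (fun w => by simp) (by norm_num) hp hκ
  simp only [Matrix.zero_mulVec, dotProduct_zero, mul_zero, Finset.sum_const_zero,
    Matrix.trace_zero, Matrix.zero_apply, div_one, add_zero, sub_zero, ne_eq, OfNat.ofNat_ne_zero,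
    not_false_eq_true, zero_pow, zero_add] at h1
  exact h1

theorem tf_zm2_symm (p : X → ℝ) (z : X → ι → ℝ) : (zm2 p z)ᵀ = zm2 p z := by
  ext i j
  rw [Matrix.transpose_apply, tf_zm2_apply, tf_zm2_apply]
  apply Finset.sum_congr rfl
  intro x _
  ring

/-- (T2) -/
theorem St.T2_pr (h : St M μ₀ ν₀ lam Lam (m + 1) α β F) (hf : Frame α F.a o s ss) {p : X → ℝ}
    (hp : IsPr p) {κ : ℝ} (hκ : Kap M lam Lam (m + 1) α β F p κ) {d : ℝ} (hd : 1 ≤ d)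
    (hc : ∀ w : ι → ℝ, |w ⬝ᵥ ((zm2 p (zc F.a o s) - 1) *ᵥ w)| ≤ d * (w ⬝ᵥ w)) :
    ∑ i, ∑ j, (zm2 p (zc F.a o s) - 1) i j ^ 2 ≤
      8 * d * ((m + 3) * (lam / Lam) / ss) * κ := by
  set D := zm2 p (zc F.a o s) - 1 with hD
  have hDt : Dᵀ = D := by
    rw [hD, Matrix.transpose_sub, tf_zm2_symm, Matrix.transpose_one]
  have h1 := h.T_frame'_pr hf hDt (c := d) (θ := 1 / (4 * d)) (by positivity) hc (by
    have : 1 / (4 * d) * d = 1 / 4 := by field_simp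
    rw [this]
    norm_num) hp hκ
  have h2 : ∑ x, p x * (zc F.a o s x ⬝ᵥ (D *ᵥ zc F.a o s x)) - D.trace =
      ∑ i, ∑ j, D i j ^ 2 := by
    rw [tf_quad, ← tf_tr_one, ← Finset.sum_sub_distrib]
    apply Finset.sum_congr rfl
    intro i _
    rw [← Finset.sum_sub_distrib]
    apply Finset.sum_congr rfl
    intro j _
    have : D i j = zm2 p (zc F.a o s) i j - (1 : Matrix ι ι ℝ) i j := rfl
    rw [sq]
    nth_rewrite 4 [this]
    ring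
  rw [h2] at h1
  set S := ∑ i, ∑ j, D i j ^ 2 with hS
  have hS0 : 0 ≤ S := by
    rw [hS]
    positivity
  have h3 : 2 * (1 / (4 * d)) * S ≤ 1 / 2 * S := by
    apply mul_le_mul_of_nonneg_right _ hS0
    have : 1 / (4 * d) ≤ 1 / 4 := by
      rw [div_le_div_iff_of_pos_left one_pos (by positivity) (by norm_num)]
      linarith
    linarith
  have h4 : (m + 3) * (lam / Lam) / ss * κ / (1 / (4 * d)) =
      4 * d * ((m + 3) * (lam / Lam) / ss) * κ := by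
    field_simp
  rw [h4] at h1
  linarith

theorem tf_zm2_quad (p : X → ℝ) (z : X → ι → ℝ) (w : ι → ℝ) :
    w ⬝ᵥ (zm2 p z *ᵥ w) = ∑ x, p x * (z x ⬝ᵥ w) ^ 2 := by
  unfold zm2
  rw [Matrix.sum_mulVec, dotProduct_sum]
  apply Finset.sum_congr rfl
  intro x _
  rw [Matrix.smul_mulVec, dotProduct_smul, Matrix.vecMulVec_mulVec, smul_eq_mul]
  have h1 : w ⬝ᵥ (MulOpposite.op (z x ⬝ᵥ w) • z x) = (z x ⬝ᵥ w) * (z x ⬝ᵥ w) := by
    have : MulOpposite.op (z x ⬝ᵥ w) • z x = (z x ⬝ᵥ w) • z x := by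
      funext i
      simp [mul_comm]
    rw [this, dotProduct_smul, smul_eq_mul, dotProduct_comm w]
  rw [h1]
  ring

/-- operator norm of the deviation for a density at most `C` -/
theorem tf_dev {a : X → Fin n → ℝ} (hf : Frame α a o s ss) {p : X → ℝ} (hp : IsPr p) {C : ℝ}
    (hC : ∀ x, p x ≤ C * α x) {d : ℝ} (hd : 1 ≤ d) (hCd : C ≤ d + 1) (w : ι → ℝ)
    (hα : ∀ x, 0 ≤ α x) :
    |w ⬝ᵥ ((zm2 p (zc a o s) - 1) *ᵥ w)| ≤ d * (w ⬝ᵥ w) := by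
  have h0 := tf_dot_self_nonneg w
  rw [Matrix.sub_mulVec, dotProduct_sub, Matrix.one_mulVec, tf_zm2_quad]
  have h1 : 0 ≤ ∑ x, p x * (zc a o s x ⬝ᵥ w) ^ 2 :=
    Finset.sum_nonneg fun x _ => mul_nonneg (hp.nonneg x) (sq_nonneg _)
  have h2 : ∑ x, p x * (zc a o s x ⬝ᵥ w) ^ 2 ≤ (d + 1) * (w ⬝ᵥ w) := by
    have h3 : ∑ x, α x * (zc a o s x ⬝ᵥ w) ^ 2 = w ⬝ᵥ w := by
      rw [← tf_zm2_quad, tf_zm2_one hf, Matrix.one_mulVec]
    rw [← h3, Finset.mul_sum]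
    apply Finset.sum_le_sum
    intro x _
    calc p x * (zc a o s x ⬝ᵥ w) ^ 2 ≤ (C * α x) * (zc a o s x ⬝ᵥ w) ^ 2 :=
          mul_le_mul_of_nonneg_right (hC x) (sq_nonneg _)
      _ ≤ ((d + 1) * α x) * (zc a o s x ⬝ᵥ w) ^ 2 := by
          apply mul_le_mul_of_nonneg_right _ (sq_nonneg _)
          exact mul_le_mul_of_nonneg_right hCd (hα x)
      _ = _ := by ring
  rw [abs_le]
  constructor
  · nlinarith
  · linarith

theorem tf_zm2_add (p q : X → ℝ) (z : X → ι → ℝ) :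
    zm2 (fun x => p x + q x) z = zm2 p z + zm2 q z := by
  unfold zm2
  simp only [add_smul, Finset.sum_add_distrib]

theorem tf_zm2_smul (c : ℝ) (p : X → ℝ) (z : X → ι → ℝ) :
    zm2 (fun x => c * p x) z = c • zm2 p z := by
  unfold zm2
  simp only [mul_smul]
  rw [Finset.smul_sum]

/-- (T3) -/
theorem St.T3_pr (h : St M μ₀ ν₀ lam Lam (m + 1) α β F) (hf : Frame α F.a o s ss) {g : X → ℝ}
    (hg : ∀ x, |g x| ≤ 1) :
    ∑ i, ∑ j, (zm2 (fun x => α x * g x) (zc F.a o s) - (∑ x, α x * g x) • 1) i j ^ 2 ≤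
      90 * ((m + 3) * (lam / Lam) / ss) := by
  set z := zc F.a o s with hz
  set e := ∑ x, α x * g x with he
  have hα := h.hα
  have he1 : |e| ≤ 1 := by
    rw [he]
    calc |∑ x, α x * g x| ≤ ∑ x, |α x * g x| := Finset.abs_sum_le_sum_abs _ _
      _ ≤ ∑ x, α x := by
          apply Finset.sum_le_sum
          intro x _
          rw [abs_mul, abs_of_nonneg (hα.nonneg x)]
          exact mul_le_of_le_one_right (hα.nonneg x) (hg x)
      _ = 1 := hα.sum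
  set p : X → ℝ := fun x => α x * (1 + (g x - e) / 2) with hp
  have hpb : ∀ x, |(g x - e) / 2| ≤ 1 := by
    intro x
    rw [abs_div, abs_two, div_le_one two_pos]
    calc |g x - e| ≤ |g x| + |e| := abs_sub _ _
      _ ≤ 2 := by linarith [hg x]
  have hpr : IsPr p := by
    constructor
    · intro x
      have := (abs_le.1 (hpb x)).1
      exact mul_nonneg (hα.nonneg x) (by linarith)
    · have : ∀ x, p x = α x + 1 / 2 * (α x * g x) - e / 2 * α x := by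
        intro x
        simp only [hp]
        ring
      simp only [this]
      rw [Finset.sum_sub_distrib, Finset.sum_add_distrib, ← Finset.mul_sum, ← Finset.mul_sum,
        hα.sum, ← he]
      ring
  have hle : ∀ x, p x ≤ 2 * α x := by
    intro x
    have := (abs_le.1 (hpb x)).2
    have h0 := hα.nonneg x
    simp only [hp]
    nlinarith
  have hκ := h.kap_sup_pr hpr (t := Real.log 2) (fun x => by
    rw [Real.exp_log two_pos]
    exact hle x)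
  have hT := h.T2_pr hf hpr hκ (d := 1) le_rfl
    (fun w => tf_dev hf hpr hle le_rfl (by norm_num) w hα.nonneg)
  have hD : zm2 p z - 1 = (1 / 2 : ℝ) • (zm2 (fun x => α x * g x) z - e • 1) := by
    have h1 : p = fun x => (α x + 1 / 2 * (α x * g x)) + (-(e / 2)) * α x := by
      funext x
      simp only [hp]
      ring
    rw [h1, tf_zm2_add, tf_zm2_add, tf_zm2_smul, tf_zm2_smul (-(e / 2)), tf_zm2_one hf]
    rw [smul_sub, smul_smul]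
    have : (-(e / 2)) • (1 : Matrix ι ι ℝ) = -((1 / 2 * e) • (1 : Matrix ι ι ℝ)) := by
      rw [neg_smul]
      congr 2
      ring
    rw [this]
    abel
  rw [← hz, hD] at hT
  have hsq : ∑ i, ∑ j, ((1 / 2 : ℝ) • (zm2 (fun x => α x * g x) z - e • (1 : Matrix ι ι ℝ))) i j ^ 2 =
      1 / 4 * ∑ i, ∑ j, (zm2 (fun x => α x * g x) z - e • (1 : Matrix ι ι ℝ)) i j ^ 2 := by
    rw [Finset.mul_sum]
    apply Finset.sum_congr rfl
    intro i _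
    rw [Finset.mul_sum]
    apply Finset.sum_congr rfl
    intro j _
    rw [Matrix.smul_apply, smul_eq_mul]
    ring
  rw [hsq] at hT
  have hρ : 0 ≤ (m + 3) * (lam / Lam) / ss := by
    have := h.hlam
    have := h.hLam
    have := hf.pos
    positivity
  have hlog : Real.log 2 < 0.7 := by
    have := Real.log_two_lt_d9
    linarith
  nlinarith

end Pool.Agent.LR2
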