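import Pool.Agent.Lib_helper39.LR2.T1

/-!
# The inequality (T4): isotropy in `L²`
-/

set_option autoImplicit false
set_option linter.unusedSectionVars false

open Finset Matrix

namespace Pool.Agent.LR2

section Hs

variable {ι : Type} [Fintype ι] [DecidableEq ι]

/-- Hilbert-Schmidt norm -/
noncomputable def hsn (A : Matrix ι ι ℝ) : ℝ :=
  ‖(WithLp.toLp 2 (fun k : ι × ι => A k.1 k.2) : EuclideanSpace ℝ (ι × ι))‖

theorem hsn_nonneg (A : Matrix ι ι ℝ) : 0 ≤ hsn A := norm_nonneg _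

theorem hsn_sq (A : Matrix ι ι ℝ) : hsn A ^ 2 = ∑ i, ∑ j, A i j ^ 2 := by
  unfold hsn
  rw [EuclideanSpace.norm_sq_eq, Fintype.sum_prod_type]
  apply Finset.sum_congr rfl
  intro i _
  apply Finset.sum_congr rfl
  intro j _
  rw [Real.norm_eq_abs, sq_abs]

theorem hsn_add_le (A B : Matrix ι ι ℝ) : hsn (A + B) ≤ hsn A + hsn B := by
  unfold hsn
  have h : (WithLp.toLp 2 (fun k : ι × ι => (A + B) k.1 k.2) : EuclideanSpace ℝ (ι × ι)) =
      WithLp.toLp 2 (fun k : ι × ι => A k.1 k.2) + WithLp.toLp 2 (fun k : ι × ι => B k.1 k.2) :=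
    rfl
  rw [h]
  exact norm_add_le _ _

theorem hsn_smul (c : ℝ) (A : Matrix ι ι ℝ) : hsn (c • A) = |c| * hsn A := by
  unfold hsn
  have h : (WithLp.toLp 2 (fun k : ι × ι => (c • A) k.1 k.2) : EuclideanSpace ℝ (ι × ι)) =
      c • WithLp.toLp 2 (fun k : ι × ι => A k.1 k.2) := rfl
  rw [h, norm_smul, Real.norm_eq_abs]

theorem hsn_zero : hsn (0 : Matrix ι ι ℝ) = 0 := by
  have := hsn_smul (0 : ℝ) (0 : Matrix ι ι ℝ)
  rw [zero_smul, abs_zero, zero_mul] at this
  exact this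

theorem hsn_sum_le {κ : Type} (s : Finset κ) (A : κ → Matrix ι ι ℝ) :
    hsn (∑ k ∈ s, A k) ≤ ∑ k ∈ s, hsn (A k) := by
  classical
  induction s using Finset.induction_on with
  | empty => simp [hsn_zero]
  | insert k s hk ih =>
    rw [Finset.sum_insert hk, Finset.sum_insert hk]
    exact (hsn_add_le _ _).trans (by linarith)

end Hs

variable {X Y : Type} [Fintype X] [Fintype Y] [Nonempty X] [Nonempty Y] {n : ℕ}
variable {M : X → Y → ℝ} {μ₀ : X → ℝ} {ν₀ : Y → ℝ} {lam Lam : ℝ} {m : ℕ}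
  {α : X → ℝ} {β : Y → ℝ} {F : Fac X Y n}
variable {ι : Type} [Fintype ι] [DecidableEq ι] {o : ι → Fin n → ℝ} {s : ι → ℝ} {ss : ℝ}

/-- the deviation of the weighted moments -/
noncomputable def dg4 (α : X → ℝ) (z : X → ι → ℝ) (g : X → ℝ) : Matrix ι ι ℝ :=
  zm2 (fun x => α x * g x) z - (∑ x, α x * g x) • 1

theorem dg4_add (α : X → ℝ) (z : X → ι → ℝ) (f g : X → ℝ) :
    dg4 α z (fun x => f x + g x) = dg4 α z f + dg4 α z g := by
  unfold dg4
  simp only [mul_add]
  rw [tf_zm2_add, Finset.sum_add_distrib, add_smul]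
  abel

theorem dg4_smul (α : X → ℝ) (z : X → ι → ℝ) (c : ℝ) (g : X → ℝ) :
    dg4 α z (fun x => c * g x) = c • dg4 α z g := by
  unfold dg4
  have h1 : (fun x => α x * (c * g x)) = fun x => c * (α x * g x) := by
    funext x
    ring
  rw [h1, tf_zm2_smul, ← Finset.mul_sum, smul_sub, smul_smul]

theorem dg4_sum (α : X → ℝ) (z : X → ι → ℝ) (N : ℕ) (g : ℕ → X → ℝ) :
    dg4 α z (fun x => ∑ j ∈ range N, g j x) = ∑ j ∈ range N, dg4 α z (g j) := by
  induction N with
  | zero =>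
    unfold dg4 zm2
    simp
  | succ N ih =>
    rw [Finset.sum_range_succ, ← ih, ← dg4_add]
    congr 1
    funext x
    rw [Finset.sum_range_succ]

theorem t4_mono {a q : ℝ} (ha : 0 < a) (haq : a ≤ q) (hq : q ≤ 1) :
    a * (Real.log (1 / a) + 2) ≤ q * (Real.log (1 / q) + 2) := by
  have hq0 : 0 < q := by linarith
  have h1 : Real.log (1 / a) = Real.log (1 / q) + Real.log (q / a) := by
    rw [← Real.log_mul (by positivity) (by positivity)]
    congr 1
    field_simp
  have h2 : Real.log (q / a) ≤ q / a - 1 := Real.log_le_sub_one_of_pos (by positivity)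
  have h3 : a * Real.log (q / a) ≤ q - a := by
    calc a * Real.log (q / a) ≤ a * (q / a - 1) := mul_le_mul_of_nonneg_left h2 ha.le
      _ = q - a := by field_simp
  have h4 : 0 ≤ Real.log (1 / q) := by
    apply Real.log_nonneg
    rw [le_div_iff₀ hq0]
    linarith
  rw [h1]
  nlinarith

/-- a slice -/
theorem St.t4_slice (h : St M μ₀ ν₀ lam Lam (m + 1) α β F) (hf : Frame α F.a o s ss)
    (hρ : 1 ≤ (m + 3) * (lam / Lam) / ss) {f : X → ℝ} (hf0 : ∀ x, 0 ≤ f x) (hf1 : ∀ x, f x ≤ 1)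
    {q : ℝ} (hq0 : 0 < q) (hq1 : q ≤ 1) (hq : ∑ x, α x * f x ≤ q) :
    hsn (dg4 α (zc F.a o s) f) ^ 2 ≤
        8 * ((m + 3) * (lam / Lam) / ss) * (q * (Real.log (1 / q) + 2)) ∧
      hsn (dg4 α (zc F.a o s) f) ≤
        4.5 * ((m + 3) * (lam / Lam) / ss) * (q * (Real.log (1 / q) + 2)) := by
  set ρ := (m + 3) * (lam / Lam) / ss with hρd
  set z := zc F.a o s with hz
  set a := ∑ x, α x * f x with ha
  have hα := h.hα
  have ha0 : 0 ≤ a := Finset.sum_nonneg fun x _ => mul_nonneg (hα.nonneg x) (hf0 x)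
  have hlogq : 0 ≤ Real.log (1 / q) := by
    apply Real.log_nonneg
    rw [le_div_iff₀ hq0]
    linarith
  rcases eq_or_lt_of_le ha0 with h0 | hpos
  · have h1 : ∀ x, α x * f x = 0 := by
      intro x
      have h2 := (Finset.sum_eq_zero_iff_of_nonneg
        (fun x _ => mul_nonneg (hα.nonneg x) (hf0 x))).1 h0.symm
      exact h2 x (Finset.mem_univ x)
    have h2 : dg4 α z f = 0 := by
      unfold dg4
      rw [← ha, ← h0, zero_smul, sub_zero]
      unfold zm2
      simp [h1]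
    rw [h2, hsn_zero]
    constructor
    · have : 0 ≤ 8 * ρ * (q * (Real.log (1 / q) + 2)) := by positivity
      simpa using this
    · positivity
  · have ha1 : a ≤ 1 := hq.trans hq1
    set p : X → ℝ := fun x => 1 / a * (α x * f x) with hp
    have hpr : IsPr p := by
      constructor
      · intro x
        have := mul_nonneg (hα.nonneg x) (hf0 x)
        simp only [hp]
        positivity
      · simp only [hp]
        rw [← Finset.mul_sum, ← ha]
        field_simp
    have hle : ∀ x, p x ≤ 1 / a * α x := by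
      intro x
      simp only [hp]
      apply mul_le_mul_of_nonneg_left _ (by positivity)
      exact mul_le_of_le_one_right (hα.nonneg x) (hf1 x)
    set κ := Real.log (1 / a) + 2 with hκd
    have hκ := h.kap_sup_pr hpr (t := Real.log (1 / a)) (fun x => by
      rw [Real.exp_log (by positivity)]
      exact hle x)
    have hloga : 0 ≤ Real.log (1 / a) := by
      apply Real.log_nonneg
      rw [le_div_iff₀ hpos]
      linarith
    have hκ2 : 2 ≤ κ := by linarith
    have hD : dg4 α z f = a • (zm2 p z - 1) := by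
      unfold dg4
      rw [← ha]
      have h1 : zm2 p z = (1 / a) • zm2 (fun x => α x * f x) z := by
        rw [hp, tf_zm2_smul]
      rw [h1, smul_sub, smul_smul]
      have : a * (1 / a) = 1 := by field_simp
      rw [this, one_smul]
    have hmono := t4_mono hpos hq hq1
    have h1a : 1 ≤ 1 / a := by
      rw [le_div_iff₀ hpos]
      linarith
    have hA := h.T2_pr hf hpr hκ (d := 1 / a) h1a
      (fun w => tf_dev hf hpr hle h1a (by linarith) w hα.nonneg)
    have hB := h.T2_pr hf hpr hκ (d := 1 + 2 * ρ * κ) (by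
        have : 0 ≤ 2 * ρ * κ := by positivity
        linarith) (by
      intro w
      have hw0 := tf_dot_self_nonneg w
      rw [Matrix.sub_mulVec, dotProduct_sub, Matrix.one_mulVec, tf_zm2_quad]
      have h1 : 0 ≤ ∑ x, p x * (zc F.a o s x ⬝ᵥ w) ^ 2 :=
        Finset.sum_nonneg fun x _ => mul_nonneg (hpr.nonneg x) (sq_nonneg _)
      have h2 : ∑ x, p x * (zc F.a o s x ⬝ᵥ w) ^ 2 ≤ (2 + 2 * ρ * κ) * (w ⬝ᵥ w) := by
        rcases eq_or_lt_of_le hw0 with hw | hw
        · have hw' : w = 0 := by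
            have := dotProduct_self_eq_zero.1 hw.symm
            exact this
          rw [hw']
          simp
        · have hvv : ∀ v : ι → ℝ, v ⬝ᵥ (vecMulVec w w *ᵥ v) = (w ⬝ᵥ v) ^ 2 := by
            intro v
            rw [Matrix.vecMulVec_mulVec]
            have h3 : MulOpposite.op (w ⬝ᵥ v) • w = (w ⬝ᵥ v) • w := by
              funext i
              simp [mul_comm]
            rw [h3, dotProduct_smul, smul_eq_mul, dotProduct_comm v w]
            ring
          have h3 := h.T1_pr hf (K := vecMulVec w w) (by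
              ext i j
              simp [Matrix.vecMulVec_apply, mul_comm]) hw
            (fun v => by rw [hvv]; positivity) (fun v => by
              rw [hvv]
              have := Finset.sum_mul_sq_le_sq_mul_sq Finset.univ w v
              unfold dotProduct
              simp only [← sq]
              exact this) hpr hκ
          simp only [hvv] at h3
          have h4 : (vecMulVec w w).trace = w ⬝ᵥ w := by
            unfold Matrix.trace dotProduct
            apply Finset.sum_congr rfl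
            intro i _
            rw [Matrix.diag_apply, Matrix.vecMulVec_apply]
          rw [h4, ← hκd, ← hρd] at h3
          have h5 : ∀ x, (w ⬝ᵥ zc F.a o s x) ^ 2 = (zc F.a o s x ⬝ᵥ w) ^ 2 := by
            intro x
            rw [dotProduct_comm]
          simp only [h5] at h3
          linarith
      rw [abs_le]
      have h6 : 0 ≤ 2 * ρ * κ * (w ⬝ᵥ w) := by positivity
      constructor
      · nlinarith
      · linarith)
    rw [← hz, ← hρd, ← hκd, ← hsn_sq] at hA hB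
    have hH : hsn (dg4 α z f) = a * hsn (zm2 p z - 1) := by
      rw [hD, hsn_smul, abs_of_pos hpos]
    have hn := hsn_nonneg (zm2 p z - 1)
    constructor
    · calc hsn (dg4 α z f) ^ 2 = a ^ 2 * hsn (zm2 p z - 1) ^ 2 := by rw [hH, mul_pow]
        _ ≤ a ^ 2 * (8 * (1 / a) * ρ * κ) := mul_le_mul_of_nonneg_left hA (sq_nonneg _)
        _ = 8 * ρ * (a * κ) := by field_simp
        _ ≤ _ := mul_le_mul_of_nonneg_left hmono (by positivity)
    · have hρκ : 2 ≤ ρ * κ := by nlinarith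
      have h7 : hsn (zm2 p z - 1) ^ 2 ≤ (4.5 * (ρ * κ)) ^ 2 := by
        refine hB.trans ?_
        nlinarith
      have h8 : hsn (zm2 p z - 1) ≤ 4.5 * (ρ * κ) :=
        (pow_le_pow_iff_left₀ hn (by positivity) two_ne_zero).1 h7
      calc hsn (dg4 α z f) = a * hsn (zm2 p z - 1) := hH
        _ ≤ a * (4.5 * (ρ * κ)) := mul_le_mul_of_nonneg_left h8 hpos.le
        _ = 4.5 * ρ * (a * κ) := by ring
        _ ≤ _ := mul_le_mul_of_nonneg_left hmono (by positivity)

theorem t4_geo (A : ℝ) (R : ℕ) :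
    ∑ i ∈ range R, (1 / 2 : ℝ) ^ i * (A + i) = 2 * A + 2 - 2 * (1 / 2) ^ R * (A + R + 1) := by
  induction R with
  | zero =>
    simp
    ring
  | succ R ih =>
    rw [Finset.sum_range_succ, ih]
    push_cast
    ring

theorem t4_log4 (j : ℕ) : Real.log (1 / (1 / 4 : ℝ) ^ j) ≤ 1.4 * j := by
  rw [one_div, ← inv_pow, one_div, inv_inv, Real.log_pow]
  have h1 : Real.log 4 = 2 * Real.log 2 := by
    rw [show (4 : ℝ) = 2 ^ 2 by norm_num, Real.log_pow]
    norm_num
  have h2 := Real.log_two_lt_d9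
  rw [h1]
  have : (0 : ℝ) ≤ j := Nat.cast_nonneg j
  nlinarith

/-- nonnegative functions -/
theorem St.t4_pos (h : St M μ₀ ν₀ lam Lam (m + 1) α β F) (hf : Frame α F.a o s ss)
    (hρ : 1 ≤ (m + 3) * (lam / Lam) / ss) {J : ℕ} (hJ : (m + 3) * (lam / Lam) / ss ≤ 2 ^ J)
    {g : X → ℝ} (hg0 : ∀ x, 0 ≤ g x) (hg : ∑ x, α x * g x ^ 2 ≤ 1) :
    hsn (dg4 α (zc F.a o s) g) ^ 2 ≤ 3984 * ((m + 3) * (lam / Lam) / ss) * (J + 1) ^ 3 := by
  set ρ := (m + 3) * (lam / Lam) / ss with hρd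
  set z := zc F.a o s with hz
  have hα := h.hα
  -- the number of slices
  obtain ⟨N0, hN0⟩ : ∃ N0 : ℕ, ∀ x, g x ≤ 2 ^ N0 := by
    obtain ⟨N0, hN0⟩ := pow_unbounded_of_one_lt (∑ x, g x) (by norm_num : (1 : ℝ) < 2)
    refine ⟨N0, fun x => ?_⟩
    exact (Finset.single_le_sum (f := g) (fun x _ => hg0 x) (Finset.mem_univ x)).trans hN0.le
  have hN : ∀ x, g x ≤ 2 ^ (J + N0) := fun x =>
    (hN0 x).trans (pow_le_pow_right₀ (by norm_num) (by omega))
  set gj : ℕ → X → ℝ := fun j x => Min.min (g x) (2 ^ (j + 1)) - Min.min (g x) (2 ^ j) with hgj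
  have hdec : g = fun x => Min.min (g x) 1 + ∑ j ∈ range (J + N0), gj j x := by
    funext x
    simp only [hgj]
    rw [Finset.sum_range_sub (fun j => Min.min (g x) ((2 : ℝ) ^ j)), pow_zero, min_eq_left (hN x)]
    ring
  -- the slices
  have hsl : ∀ j, hsn (dg4 α z (gj j)) ^ 2 ≤ 16 * ρ * (j + 1) ∧
      hsn (dg4 α z (gj j)) ≤ 9 * ρ * ((1 / 2) ^ j * (j + 1)) := by
    intro j
    have h2j : (0 : ℝ) < 2 ^ j := by positivity
    set f : X → ℝ := fun x => gj j x / 2 ^ j with hfd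
    have hf0 : ∀ x, 0 ≤ f x := by
      intro x
      apply div_nonneg _ h2j.le
      simp only [hgj]
      rw [sub_nonneg]
      exact min_le_min_left _ (pow_le_pow_right₀ (by norm_num) (by omega))
    have hf1 : ∀ x, f x ≤ 1 := by
      intro x
      simp only [hfd, hgj]
      rw [div_le_one h2j, pow_succ]
      rcases le_total (g x) (2 ^ j) with hx | hx
      · rw [min_eq_left hx, min_eq_left (hx.trans (by linarith))]
        linarith
      · rw [min_eq_right hx]
        have := min_le_right (g x) ((2 : ℝ) ^ j * 2)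
        linarith
    have hfle : ∀ x, f x ≤ (1 / 4) ^ j * g x ^ 2 := by
      intro x
      have h4 : ((1 : ℝ) / 4) ^ j = 1 / (2 ^ j) ^ 2 := by
        rw [div_pow, one_pow, ← pow_mul, mul_comm j 2, pow_mul]
        norm_num
      rcases le_total (g x) (2 ^ j) with hx | hx
      · have : f x = 0 := by
          simp only [hfd, hgj]
          rw [min_eq_left hx, min_eq_left (hx.trans (pow_le_pow_right₀ (by norm_num) (by omega)))]
          simp
        rw [this]
        positivity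
      · refine (hf1 x).trans ?_
        rw [h4, one_div, ← div_eq_inv_mul, le_div_iff₀ (by positivity), one_mul]
        exact pow_le_pow_left₀ h2j.le hx 2
    have hq : ∑ x, α x * f x ≤ (1 / 4) ^ j := by
      calc ∑ x, α x * f x ≤ ∑ x, (1 / 4) ^ j * (α x * g x ^ 2) := by
            apply Finset.sum_le_sum
            intro x _
            have := mul_le_mul_of_nonneg_left (hfle x) (hα.nonneg x)
            linarith
        _ = (1 / 4) ^ j * ∑ x, α x * g x ^ 2 := by rw [Finset.mul_sum]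
        _ ≤ (1 / 4) ^ j * 1 := mul_le_mul_of_nonneg_left hg (by positivity)
        _ = _ := mul_one _
    have hsb := h.t4_slice hf hρ hf0 hf1 (q := (1 / 4) ^ j) (by positivity)
      (pow_le_one₀ (by norm_num) (by norm_num)) hq
    rw [← hz, ← hρd] at hsb
    have hlog := t4_log4 j
    have hgf : dg4 α z (gj j) = (2 ^ j : ℝ) • dg4 α z f := by
      rw [← dg4_smul]
      congr 1
      funext x
      simp only [hfd]
      field_simp
    have hj0 : (0 : ℝ) ≤ j := Nat.cast_nonneg j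
    have hn : hsn (dg4 α z (gj j)) = 2 ^ j * hsn (dg4 α z f) := by
      rw [hgf, hsn_smul, abs_of_pos h2j]
    have h24 : ((2 : ℝ) ^ j) ^ 2 * (1 / 4) ^ j = 1 := by
      rw [← pow_mul, mul_comm j 2, pow_mul, ← mul_pow]
      norm_num
    have h12 : (2 : ℝ) ^ j * (1 / 4) ^ j = (1 / 2) ^ j := by
      rw [← mul_pow]
      norm_num
    constructor
    · rw [hn, mul_pow]
      calc (2 ^ j : ℝ) ^ 2 * hsn (dg4 α z f) ^ 2 ≤ (2 ^ j : ℝ) ^ 2 *
            (8 * ρ * ((1 / 4) ^ j * (Real.log (1 / (1 / 4) ^ j) + 2))) :=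
            mul_le_mul_of_nonneg_left hsb.1 (by positivity)
        _ = ((2 : ℝ) ^ j) ^ 2 * (1 / 4) ^ j * (8 * ρ * (Real.log (1 / (1 / 4) ^ j) + 2)) := by ring
        _ = 8 * ρ * (Real.log (1 / (1 / 4) ^ j) + 2) := by rw [h24, one_mul]
        _ ≤ 8 * ρ * (1.4 * j + 2) := by gcongr
        _ ≤ _ := by nlinarith
    · rw [hn]
      calc (2 ^ j : ℝ) * hsn (dg4 α z f) ≤ (2 ^ j : ℝ) *
            (4.5 * ρ * ((1 / 4) ^ j * (Real.log (1 / (1 / 4) ^ j) + 2))) :=
            mul_le_mul_of_nonneg_left hsb.2 h2j.le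
        _ = ((2 : ℝ) ^ j * (1 / 4) ^ j) * (4.5 * ρ * (Real.log (1 / (1 / 4) ^ j) + 2)) := by ring
        _ = (1 / 2) ^ j * (4.5 * ρ * (Real.log (1 / (1 / 4) ^ j) + 2)) := by rw [h12]
        _ ≤ (1 / 2) ^ j * (4.5 * ρ * (1.4 * j + 2)) := by gcongr
        _ ≤ (1 / 2) ^ j * (9 * ρ * (j + 1)) := by
            apply mul_le_mul_of_nonneg_left _ (by positivity)
            nlinarith
        _ = _ := by ring
  -- the first slice
  have hfirst : hsn (dg4 α z (fun x => Min.min (g x) 1)) ^ 2 ≤ 16 * ρ := by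
    have hsb := h.t4_slice hf hρ (f := fun x => Min.min (g x) 1) (fun x => le_min (hg0 x) zero_le_one)
      (fun x => min_le_right _ _) (q := 1) one_pos le_rfl (by
        calc ∑ x, α x * Min.min (g x) 1 ≤ ∑ x, α x := by
              apply Finset.sum_le_sum
              intro x _
              exact mul_le_of_le_one_right (hα.nonneg x) (min_le_right _ _)
          _ = 1 := hα.sum)
    rw [← hz, ← hρd, div_one, Real.log_one] at hsb
    linarith [hsb.1]
  -- the sum
  have hsum : hsn (dg4 α z g) ≤ hsn (dg4 α z (fun x => Min.min (g x) 1)) +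
      (∑ j ∈ range J, hsn (dg4 α z (gj j)) + ∑ i ∈ range N0, hsn (dg4 α z (gj (J + i)))) := by
    conv_lhs => rw [hdec]
    rw [dg4_add, dg4_sum]
    refine (hsn_add_le _ _).trans ?_
    have h9 : ∑ k ∈ range (J + N0), hsn (dg4 α z (gj k)) =
        ∑ j ∈ range J, hsn (dg4 α z (gj j)) + ∑ i ∈ range N0, hsn (dg4 α z (gj (J + i))) :=
      Finset.sum_range_add _ _ _
    have := hsn_sum_le (range (J + N0)) fun j => dg4 α z (gj j)
    rw [h9] at this
    linarith
  have hρ0 : 0 < ρ := by linarith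
  have hJ0 : (0 : ℝ) ≤ J := Nat.cast_nonneg J
  set a1 := hsn (dg4 α z (fun x => Min.min (g x) 1)) with ha1
  set a2 := ∑ j ∈ range J, hsn (dg4 α z (gj j)) with ha2
  set a3 := ∑ i ∈ range N0, hsn (dg4 α z (gj (J + i))) with ha3
  have ha10 : 0 ≤ a1 := hsn_nonneg _
  have ha20 : 0 ≤ a2 := Finset.sum_nonneg fun _ _ => hsn_nonneg _
  have ha30 : 0 ≤ a3 := Finset.sum_nonneg fun _ _ => hsn_nonneg _
  have hb2 : a2 ^ 2 ≤ 16 * ρ * (J + 1) ^ 3 := by
    set B := Real.sqrt (16 * ρ * (J + 1)) with hB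
    have hB2 : B ^ 2 = 16 * ρ * (J + 1) := Real.sq_sqrt (by positivity)
    have h1 : a2 ≤ J * B := by
      rw [ha2]
      calc ∑ j ∈ range J, hsn (dg4 α z (gj j)) ≤ ∑ j ∈ range J, B := by
            apply Finset.sum_le_sum
            intro j hj
            have hj' : (j : ℝ) < J := by exact_mod_cast Finset.mem_range.1 hj
            apply Real.le_sqrt_of_sq_le
            refine (hsl j).1.trans ?_
            apply mul_le_mul_of_nonneg_left _ (by positivity)
            linarith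
        _ = J * B := by rw [Finset.sum_const, Finset.card_range, nsmul_eq_mul]
    calc a2 ^ 2 ≤ (J * B) ^ 2 := pow_le_pow_left₀ ha20 h1 2
      _ = (J : ℝ) ^ 2 * (16 * ρ * (J + 1)) := by rw [mul_pow, hB2]
      _ ≤ ((J : ℝ) + 1) ^ 2 * (16 * ρ * (J + 1)) := by
          apply mul_le_mul_of_nonneg_right _ (by positivity)
          nlinarith
      _ = _ := by ring
  have hb3 : a3 ≤ 36 * (J + 1) := by
    rw [ha3]
    calc ∑ i ∈ range N0, hsn (dg4 α z (gj (J + i)))
        ≤ ∑ i ∈ range N0, 9 * (ρ * (1 / 2) ^ J) * ((1 / 2) ^ i * ((J + 1 : ℝ) + i)) := by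
          apply Finset.sum_le_sum
          intro i _
          refine ((hsl (J + i)).2).trans (le_of_eq ?_)
          rw [pow_add]
          push_cast
          ring
      _ = 9 * (ρ * (1 / 2) ^ J) * ∑ i ∈ range N0, ((1 / 2) ^ i * ((J + 1 : ℝ) + i)) := by
          rw [Finset.mul_sum]
      _ ≤ 9 * 1 * (2 * (J + 1 : ℝ) + 2) := by
          have h1 : ρ * (1 / 2) ^ J ≤ 1 := by
            have h2 : (2 : ℝ) ^ J * (1 / 2) ^ J = 1 := by
              rw [← mul_pow]
              norm_num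
            calc ρ * (1 / 2) ^ J ≤ 2 ^ J * (1 / 2) ^ J :=
                  mul_le_mul_of_nonneg_right hJ (by positivity)
              _ = 1 := h2
          have h2 : ∑ i ∈ range N0, ((1 / 2 : ℝ) ^ i * ((J + 1 : ℝ) + i)) ≤ 2 * (J + 1 : ℝ) + 2 := by
            rw [t4_geo]
            have : 0 ≤ 2 * (1 / 2 : ℝ) ^ N0 * ((J + 1 : ℝ) + N0 + 1) := by positivity
            linarith
          have h3 : 0 ≤ ∑ i ∈ range N0, ((1 / 2 : ℝ) ^ i * ((J + 1 : ℝ) + i)) :=
            Finset.sum_nonneg fun i _ => by positivity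
          have h4 : 0 ≤ ρ * (1 / 2) ^ J := by positivity
          nlinarith
      _ ≤ _ := by linarith
  have hy : (1 : ℝ) ≤ ((J : ℝ) + 1) ^ 3 := one_le_pow₀ (by linarith)
  have hb1 : a1 ^ 2 ≤ 16 * ρ * (J + 1) ^ 3 := by
    refine hfirst.trans ?_
    nlinarith
  have hb3' : a3 ^ 2 ≤ 1296 * ρ * (J + 1) ^ 3 := by
    calc a3 ^ 2 ≤ (36 * ((J : ℝ) + 1)) ^ 2 := pow_le_pow_left₀ ha30 hb3 2
      _ = 1296 * ((J : ℝ) + 1) ^ 2 := by ring
      _ ≤ 1296 * (ρ * ((J : ℝ) + 1) ^ 3) := by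
          apply mul_le_mul_of_nonneg_left _ (by norm_num)
          have h1 : ((J : ℝ) + 1) ^ 2 ≤ ((J : ℝ) + 1) ^ 3 :=
            pow_le_pow_right₀ (by linarith) (by norm_num)
          have h2 : ((J : ℝ) + 1) ^ 3 ≤ ρ * ((J : ℝ) + 1) ^ 3 := by
            have : 0 ≤ ((J : ℝ) + 1) ^ 3 := by positivity
            nlinarith
          linarith
      _ = _ := by ring
  calc hsn (dg4 α z g) ^ 2 ≤ (a1 + (a2 + a3)) ^ 2 := pow_le_pow_left₀ (hsn_nonneg _) hsum 2
    _ ≤ 3 * (a1 ^ 2 + a2 ^ 2 + a3 ^ 2) := by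
        nlinarith [sq_nonneg (a1 - a2), sq_nonneg (a1 - a3), sq_nonneg (a2 - a3)]
    _ ≤ _ := by linarith

/-- (T4) -/
theorem St.T4_pr : ∃ C : ℝ, 0 < C ∧ ∀ {X Y : Type} [Fintype X] [Fintype Y] [Nonempty X]
    [Nonempty Y]
    {n : ℕ} {M : X → Y → ℝ} {μ₀ : X → ℝ} {ν₀ : Y → ℝ} {lam Lam : ℝ} {m : ℕ}
    {α : X → ℝ} {β : Y → ℝ} {F : Fac X Y n} {ι : Type} [Fintype ι] [DecidableEq ι]
    {o : ι → Fin n → ℝ} {s : ι → ℝ} {ss : ℝ}, St M μ₀ ν₀ lam Lam (m + 1) α β F →
    Frame α F.a o s ss → 1 ≤ (m + 3) * (lam / Lam) / ss → ∀ {g : X → ℝ},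
    ∑ x, α x * g x ^ 2 ≤ 1 →
    ∑ i, ∑ j, (zm2 (fun x => α x * g x) (zc F.a o s) - (∑ x, α x * g x) • 1) i j ^ 2 ≤
      C * ((m + 3) * (lam / Lam) / ss) * (1 + Real.log ((m + 3) * (lam / Lam) / ss)) ^ 3 := by
  refine ⟨130000, by norm_num, ?_⟩
  intro X Y _ _ _ _ n M μ₀ ν₀ lam Lam m α β F ι _ _ o s ss h hf hρ g hg
  set ρ := (m + 3) * (lam / Lam) / ss with hρd
  have hα := h.hα
  have hlog : 0 ≤ Real.log ρ := Real.log_nonneg hρ
  set J := ⌈Real.logb 2 ρ⌉₊ with hJd
  have hlogb : Real.logb 2 ρ = Real.log ρ / Real.log 2 := rfl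
  have hl2 := Real.log_two_gt_d9
  have hlogb0 : 0 ≤ Real.logb 2 ρ := by
    rw [hlogb]
    positivity
  have hJ : ρ ≤ 2 ^ J := by
    calc ρ = (2 : ℝ) ^ (Real.logb 2 ρ) :=
          (Real.rpow_logb (by norm_num) (by norm_num) (by linarith)).symm
      _ ≤ (2 : ℝ) ^ (J : ℝ) := Real.rpow_le_rpow_of_exponent_le (by norm_num) (Nat.le_ceil _)
      _ = 2 ^ J := Real.rpow_natCast 2 J
  have hJ1 : (J : ℝ) + 1 ≤ 2 * (1 + Real.log ρ) := by
    have h1 : (J : ℝ) < Real.logb 2 ρ + 1 := Nat.ceil_lt_add_one hlogb0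
    have h2 : Real.logb 2 ρ ≤ 2 * Real.log ρ := by
      rw [hlogb, div_le_iff₀ (by linarith)]
      nlinarith
    linarith
  have hpart : ∀ f : X → ℝ, (∀ x, 0 ≤ f x) → (∀ x, f x ^ 2 ≤ g x ^ 2) →
      hsn (dg4 α (zc F.a o s) f) ^ 2 ≤ 3984 * ρ * (J + 1) ^ 3 := by
    intro f hf0 hfg
    apply h.t4_pos hf hρ hJ hf0
    refine le_trans ?_ hg
    apply Finset.sum_le_sum
    intro x _
    exact mul_le_mul_of_nonneg_left (hfg x) (hα.nonneg x)
  have hp := hpart (fun x => Max.max (g x) 0) (fun x => le_max_right _ _) (fun x => by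
    rcases le_total (g x) 0 with hx | hx
    · simp only [max_eq_right hx]
      nlinarith [sq_nonneg (g x)]
    · simp only [max_eq_left hx]
      exact le_rfl)
  have hn := hpart (fun x => Max.max (-g x) 0) (fun x => le_max_right _ _) (fun x => by
    rcases le_total (-g x) 0 with hx | hx
    · simp only [max_eq_right hx]
      nlinarith [sq_nonneg (g x)]
    · simp only [max_eq_left hx]
      rw [neg_sq])
  have hdec : g = fun x => Max.max (g x) 0 + (-1) * Max.max (-g x) 0 := by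
    funext x
    rcases le_total (g x) 0 with hx | hx
    · rw [max_eq_right hx, max_eq_left (by linarith)]
      ring
    · rw [max_eq_left hx, max_eq_right (by linarith)]
      ring
  have hD : dg4 α (zc F.a o s) g = dg4 α (zc F.a o s) (fun x => Max.max (g x) 0) +
      (-1 : ℝ) • dg4 α (zc F.a o s) (fun x => Max.max (-g x) 0) := by
    conv_lhs => rw [hdec]
    rw [dg4_add, dg4_smul]
  have h3 : hsn (dg4 α (zc F.a o s) g) ≤ hsn (dg4 α (zc F.a o s) (fun x => Max.max (g x) 0)) +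
      hsn (dg4 α (zc F.a o s) (fun x => Max.max (-g x) 0)) := by
    rw [hD]
    refine (hsn_add_le _ _).trans ?_
    rw [hsn_smul]
    simp
  have h4 : hsn (dg4 α (zc F.a o s) g) ^ 2 ≤ 4 * (3984 * ρ * (J + 1) ^ 3) := by
    have n1 := hsn_nonneg (dg4 α (zc F.a o s) (fun x => Max.max (g x) 0))
    have n2 := hsn_nonneg (dg4 α (zc F.a o s) (fun x => Max.max (-g x) 0))
    have n3 := hsn_nonneg (dg4 α (zc F.a o s) g)
    set b1 := hsn (dg4 α (zc F.a o s) (fun x => Max.max (g x) 0))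
    set b2 := hsn (dg4 α (zc F.a o s) (fun x => Max.max (-g x) 0))
    calc hsn (dg4 α (zc F.a o s) g) ^ 2 ≤ (b1 + b2) ^ 2 := pow_le_pow_left₀ n3 h3 2
      _ ≤ 2 * (b1 ^ 2 + b2 ^ 2) := by nlinarith [sq_nonneg (b1 - b2)]
      _ ≤ _ := by linarith
  have h5 : ∑ i, ∑ j, (zm2 (fun x => α x * g x) (zc F.a o s) - (∑ x, α x * g x) • 1) i j ^ 2 =
      hsn (dg4 α (zc F.a o s) g) ^ 2 := (hsn_sq _).symm
  rw [h5]
  refine h4.trans ?_
  have h6 : ((J : ℝ) + 1) ^ 3 ≤ (2 * (1 + Real.log ρ)) ^ 3 :=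
    pow_le_pow_left₀ (by positivity) hJ1 3
  have h7 : 0 ≤ ρ * (1 + Real.log ρ) ^ 3 := by positivity
  calc 4 * (3984 * ρ * ((J : ℝ) + 1) ^ 3) = 15936 * ρ * ((J : ℝ) + 1) ^ 3 := by ring
    _ ≤ 15936 * ρ * (2 * (1 + Real.log ρ)) ^ 3 := by
        apply mul_le_mul_of_nonneg_left h6 (by positivity)
    _ = 127488 * (ρ * (1 + Real.log ρ) ^ 3) := by ring
    _ ≤ 130000 * (ρ * (1 + Real.log ρ) ^ 3) := by linarith
    _ = _ := by ring

end Pool.Agent.LR2
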